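import Pool.Agent.Lib.TNF.OR.Spec
import Pool.Agent.Lib.TATE.Asm.Rc

/-!
# PROJECT TNF, package OR: `Act` and `GR`
-/

set_option autoImplicit false

open Topology Metric HC HC.CC SEJ TATE

noncomputable section

namespace TNF.OR

namespace Acg_aux

/-- The lattice as a subgroup. -/
def grp {m r : ℕ} {b : Fin (r + 1) → ℕ} (Λ : LPD m b) (t : Fin (r + 1) → ℂ)
    (ht : Function.Injective t) : AddSubgroup (Ix m b → ℂ) :=
  AddSubgroup.ofSub (Λ.L t) ⟨0, Λ.zero t ht⟩ fun u hu v hv => by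
    rw [← sub_eq_add_neg]
    exact Λ.sub t ht u hu v hv

lemma mem_grp {m r : ℕ} {b : Fin (r + 1) → ℕ} (Λ : LPD m b) (t : Fin (r + 1) → ℂ)
    (ht : Function.Injective t) (v : Ix m b → ℂ) : v ∈ grp Λ t ht ↔ v ∈ Λ.L t := Iff.rfl

lemma one {T : AV} {m r : ℕ} {t : Fin (r + 1) → ℂ} {b : Fin (r + 1) → ℕ} (Λ : LPD m b)
    (ht : Function.Injective t) {γ : Cur T} (κ : T.V ≃ₗ[ℂ] (Ix m b → ℂ))
    (lat : κ '' {v | In T v} = Λ.L t)
    (al : ∀ P Q v, Itg m b t P Q v → κ (γ.α Q.1 Q.2 - γ.α P.1 P.2) - v ∈ LZ m b t)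
    (k : ℕ) (Q' Q : Fin k → ℂ × ℂ) (w : Fin k → (Ix m b → ℂ))
    (hw : ∀ a, Itg m b t (Q' a) (Q a) (w a)) (v : T.V) :
    (∑ a, w a - κ v ∈ Λ.L t) ↔
      In T (v - ∑ a, (γ.α (Q a).1 (Q a).2 - γ.α (Q' a).1 (Q' a).2)) := by
  have hIn : ∀ x : T.V, In T x ↔ κ x ∈ grp Λ t ht := by
    intro x
    rw [mem_grp, ← lat]
    constructor
    · intro hx
      exact ⟨x, hx, rfl⟩
    · rintro ⟨y, hy, hxy⟩
      rw [← κ.injective hxy]
      exact hy
  have hz : ∑ a, (κ (γ.α (Q a).1 (Q a).2 - γ.α (Q' a).1 (Q' a).2) - w a) ∈ grp Λ t ht :=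
    sum_mem fun a _ => Λ.le t ht (al _ _ _ (hw a))
  rw [← mem_grp Λ t ht, hIn]
  have e : κ (v - ∑ a, (γ.α (Q a).1 (Q a).2 - γ.α (Q' a).1 (Q' a).2)) =
      -(∑ a, w a - κ v) -
        ∑ a, (κ (γ.α (Q a).1 (Q a).2 - γ.α (Q' a).1 (Q' a).2) - w a) := by
    rw [map_sub, map_sum, Finset.sum_sub_distrib]
    abel
  rw [e]
  constructor
  · intro h
    exact sub_mem (neg_mem h) hz
  · intro h
    have h2 := neg_mem (add_mem h hz)
    rwa [sub_add_cancel, neg_neg] at h2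

/-- The sum over a divisor of pairs. -/
lemma app {A : Type} [AddCommGroup A] {k : ℕ} (Q' Q : Fin k → ℂ × ℂ) (F : ℂ → ℂ → A) :
    ∑ i, (Fin.append (fun _ : Fin k => (1 : ℤ)) (fun _ : Fin k => -1) i) •
        F (Fin.append (fun a => (Q a).1) (fun a => (Q' a).1) i)
          (Fin.append (fun a => (Q a).2) (fun a => (Q' a).2) i) =
      ∑ a, (F (Q a).1 (Q a).2 - F (Q' a).1 (Q' a).2) := by
  rw [Fin.sum_univ_add]
  simp only [Fin.append_left, Fin.append_right, one_smul, neg_smul, Finset.sum_neg_distrib,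
    Finset.sum_sub_distrib]
  abel

end Acg_aux

open Acg_aux in
theorem tAcg : S_Dv → StmtFA2 → S_Acg := by
  intro hDv hFA p N Λ D h s J Z γ κ hs hTP σ hσ n v v'
  have ht : Function.Injective (D.t s n) := Rc_aux.pt_inj hs (h.inj n) _
  have hfix : ∀ j, σ (D.t s n j) = D.t s n j := fun j =>
    Rc_aux.fix_mem (A := ∅) ⟨hσ.1, fun a ha => ha.elim⟩ (Rc_aux.pt_mem s _ _ j)
  have hst : (fun j => σ (D.t s n j)) = D.t s n := funext hfix
  have key : ∀ R ∈ Pts (D.m n) (D.b n) (D.t s n), R.1 ∉ (γ n).S ∧ (γ n).P (R.1, R.2) = 0 := by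
    intro R hR
    refine ⟨?_, ?_⟩
    · rw [(hTP.mp n).S]
      exact hR.1
    · rw [(hTP.mp n).P, hR.2, sub_self]
  have yek : ∀ x y : ℂ, x ∉ (γ n).S → (γ n).P (x, y) = 0 →
      (x, y) ∈ Pts (D.m n) (D.b n) (D.t s n) := by
    intro x y hx hy
    rw [(hTP.mp n).S] at hx
    rw [(hTP.mp n).P, sub_eq_zero] at hy
    exact ⟨hx, hy⟩
  unfold Act
  rw [hst]
  constructor
  · rintro ⟨k, Q', Q, w, w', hw, hw', h1, h2⟩
    refine ⟨k + k, Fin.append (fun _ => 1) (fun _ => -1),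
      Fin.append (fun a => (Q a).1) (fun a => (Q' a).1),
      Fin.append (fun a => (Q a).2) (fun a => (Q' a).2), ?_, ?_, ?_, ?_⟩
    · rw [Fin.sum_univ_add]
      simp only [Fin.append_left, Fin.append_right, Finset.sum_const, smul_neg, add_neg_cancel]
    · intro i
      refine Fin.addCases (fun a => ?_) (fun a => ?_) i
      · simp only [Fin.append_left]
        have e1 := key _ (Rc_aux.pts_of_itg (hw a)).2
        have e2 := key _ (Rc_aux.pts_of_itg (hw' a)).2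
        exact ⟨e1.1, e1.2, e2.1, e2.2⟩
      · simp only [Fin.append_right]
        have e1 := key _ (Rc_aux.pts_of_itg (hw a)).1
        have e2 := key _ (Rc_aux.pts_of_itg (hw' a)).1
        exact ⟨e1.1, e1.2, e2.1, e2.2⟩
    · rw [app Q' Q (γ n).α]
      exact (one _ ht (κ n) (hTP.lat n) (hTP.al n) k Q' Q w hw v).1 h1
    · rw [app Q' Q (fun x y => (γ n).α (σ x) (σ y))]
      exact (one _ ht (κ n) (hTP.lat n) (hTP.al n) k
        (fun a => (σ (Q' a).1, σ (Q' a).2)) (fun a => (σ (Q a).1, σ (Q a).2)) w' hw' v').1 h2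
  · rintro ⟨l, e, x, y, he, hxy, h1, h2⟩
    obtain ⟨k, Q', Q, hQ', hQ, hsum⟩ := hDv (ℂ × ℂ) l e (fun i => (x i, y i)) he
    have hp : ∀ i, (x i, y i) ∈ Pts (D.m n) (D.b n) (D.t s n) ∧
        (σ (x i), σ (y i)) ∈ Pts (D.m n) (D.b n) (D.t s n) := fun i =>
      ⟨yek _ _ (hxy i).1 (hxy i).2.1, yek _ _ (hxy i).2.2.1 (hxy i).2.2.2⟩
    have hq : ∀ R : ℂ × ℂ, (∃ i, R = (x i, y i)) → R ∈ Pts (D.m n) (D.b n) (D.t s n) ∧
        (σ R.1, σ R.2) ∈ Pts (D.m n) (D.b n) (D.t s n) := by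
      rintro R ⟨i, rfl⟩
      exact hp i
    have hint := (hFA (D.m n) (D.r n) (D.b n) (h.cv n)).1 (D.t s n) ht
    choose w hw using fun a => hint _ (hq _ (hQ' a)).1 _ (hq _ (hQ a)).1
    choose w' hw' using fun a => hint _ (hq _ (hQ' a)).2 _ (hq _ (hQ a)).2
    refine ⟨k, Q', Q, w, w', hw, hw', ?_, ?_⟩
    · refine (one _ ht (κ n) (hTP.lat n) (hTP.al n) k Q' Q w hw v).2 ?_
      have := hsum (J n).V (fun R => (γ n).α R.1 R.2)
      simp only at this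
      rw [this]
      exact h1
    · refine (one _ ht (κ n) (hTP.lat n) (hTP.al n) k
        (fun a => (σ (Q' a).1, σ (Q' a).2)) (fun a => (σ (Q a).1, σ (Q a).2)) w' hw' v').2 ?_
      have := hsum (J n).V (fun R => (γ n).α (σ R.1) (σ R.2))
      simp only at this ⊢
      rw [this]
      exact h2

end TNF.OR
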