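import Pool.Agent.Lib.TNF.OR.Spec
import Pool.Agent.Lib.TATE.Asm.Mg

/-!
# PROJECT TNF: composition of the relations `GR`
-/

set_option autoImplicit false

open Topology Metric

noncomputable section

namespace TNF.OR

open HC HC.CC SEJ TATE

namespace Cmg_aux

/-- The inverse fixes the same elements. -/
theorem symm_mem {p : ℕ} {s : Fin p → ℂ} {A : Set ℂ} {σ : ℂ ≃+* ℂ} (h : σ ∈ Fix s A) :
    σ.symm ∈ Fix s A := by
  refine ⟨fun i => ?_, fun a ha => ?_⟩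
  · rw [RingEquiv.symm_apply_eq]
    exact (h.1 i).symm
  · rw [RingEquiv.symm_apply_eq]
    exact (h.2 a ha).symm

/-- The conjugate of a point of the curve. -/
theorem pt {p : ℕ} {T : AV} {m r : ℕ} {Z : T.V → T.V} {t : Fin (r + 1) → ℂ}
    {b : Fin (r + 1) → ℕ} {γ : Cur T} (hmp : IsMp T m Z t b γ) {s : Fin p → ℂ} {A : Set ℂ}
    (ht : ∀ j, t j ∈ IntermediateField.adjoin ℚ (Set.range s)) {σ : ℂ ≃+* ℂ}
    (hσ : σ ∈ Fix s A) {x y : ℂ} (hx : x ∉ γ.S) (hy : γ.P (x, y) = 0) :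
    σ x ∉ γ.S ∧ γ.P (σ x, σ y) = 0 := by
  have hf : ∀ j, σ (t j) = t j := fun j => TATE.Mg_aux.fix_adjoin hσ _ (ht j)
  refine ⟨?_, ?_⟩
  · rw [hmp.S] at hx ⊢
    rintro ⟨j, hj⟩
    apply hx
    refine ⟨j, σ.injective ?_⟩
    rw [hf j]
    exact hj
  · rw [hmp.P] at hy ⊢
    have h1 : σ (y ^ m - ∏ j, (x - t j) ^ b j) = 0 := by rw [hy, map_zero]
    rw [map_sub, map_pow, map_prod] at h1
    rw [← h1]
    congr 1
    refine Finset.prod_congr rfl fun j _ => ?_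
    rw [map_pow, map_sub, hf j]

end Cmg_aux

open Cmg_aux in
theorem tCmg : S_Cmg := by
  intro p T m r Z t b γ hmp s A ht hmod σ hσ σ' hσ' a b' c hab hcb
  obtain ⟨n, e, x, y, he, hp, h1, h2⟩ := hab
  obtain ⟨n', e', x', y', he', hp', h1', h2'⟩ := hcb
  have hpt : ∀ k, σ'.symm (σ (x k)) ∉ γ.S ∧ γ.P (σ'.symm (σ (x k)), σ'.symm (σ (y k))) = 0 :=
    fun k => pt hmp ht (symm_mem hσ') (hp k).2.2.1 (hp k).2.2.2
  refine ⟨n, e, x, y, he, fun k => ⟨(hp k).1, (hp k).2.1, (hpt k).1, (hpt k).2⟩, h1, ?_⟩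
  have hv : In T (∑ k, e k • γ.α (σ (x k)) (σ (y k)) - ∑ k, e' k • γ.α (σ' (x' k)) (σ' (y' k))) := by
    have h3 := T.L.sub_mem h2' h2
    have e1 : b' - ∑ k, e' k • γ.α (σ' (x' k)) (σ' (y' k)) -
        (b' - ∑ k, e k • γ.α (σ (x k)) (σ (y k))) =
        ∑ k, e k • γ.α (σ (x k)) (σ (y k)) - ∑ k, e' k • γ.α (σ' (x' k)) (σ' (y' k)) := by abel
    rw [e1] at h3
    exact h3
  have hgr : GR γ σ'.symm
      (∑ k, e k • γ.α (σ (x k)) (σ (y k)) - ∑ k, e' k • γ.α (σ' (x' k)) (σ' (y' k)))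
      (∑ k, e k • γ.α (σ'.symm (σ (x k))) (σ'.symm (σ (y k))) -
        ∑ k, e' k • γ.α (x' k) (y' k)) := by
    refine ⟨n + n', Fin.append e fun k => -e' k,
      Fin.append (fun k => σ (x k)) fun k => σ' (x' k),
      Fin.append (fun k => σ (y k)) fun k => σ' (y' k), ?_, ?_, ?_, ?_⟩
    · rw [Fin.sum_univ_add]
      simp only [Fin.append_left, Fin.append_right, Finset.sum_neg_distrib]
      rw [he, he', neg_zero, add_zero]
    · intro k
      refine Fin.addCases (fun i => ?_) (fun i => ?_) k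
      · rw [Fin.append_left, Fin.append_left]
        exact ⟨(hp i).2.2.1, (hp i).2.2.2, (hpt i).1, (hpt i).2⟩
      · rw [Fin.append_right, Fin.append_right, RingEquiv.symm_apply_apply,
          RingEquiv.symm_apply_apply]
        exact ⟨(hp' i).2.2.1, (hp' i).2.2.2, (hp' i).1, (hp' i).2.1⟩
    · show _ - ∑ k, _ ∈ T.L
      rw [Fin.sum_univ_add]
      simp only [Fin.append_left, Fin.append_right, neg_smul, Finset.sum_neg_distrib]
      rw [← sub_eq_add_neg, sub_self]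
      exact T.L.zero_mem
    · show _ - ∑ k, _ ∈ T.L
      rw [Fin.sum_univ_add]
      simp only [Fin.append_left, Fin.append_right, neg_smul, Finset.sum_neg_distrib,
        RingEquiv.symm_apply_apply]
      rw [← sub_eq_add_neg, sub_self]
      exact T.L.zero_mem
  have h4 := hmod σ'.symm (symm_mem hσ') _ _ hgr hv
  show c - ∑ k, e k • γ.α (σ'.symm (σ (x k))) (σ'.symm (σ (y k))) ∈ T.L
  have h5 := T.L.sub_mem h1' h4
  have e1 : c - ∑ k, e' k • γ.α (x' k) (y' k) -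
      (∑ k, e k • γ.α (σ'.symm (σ (x k))) (σ'.symm (σ (y k))) - ∑ k, e' k • γ.α (x' k) (y' k)) =
      c - ∑ k, e k • γ.α (σ'.symm (σ (x k))) (σ'.symm (σ (y k))) := by abel
  rw [e1] at h5
  exact h5

end TNF.OR
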