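import Pool.Agent.Lib.TNF.OR.Spec

/-!
# PROJECT TNF, package OR: composition at lower levels (`S_Cmr`)
-/

set_option autoImplicit false

open Topology Metric HC HC.CC SEJ TATE

noncomputable section

namespace TNF.OR

namespace Cmr_aux

theorem gr_zero {T : AV} (γ : Cur T) (σ : ℂ ≃+* ℂ) : GR γ σ 0 0 := by
  refine ⟨0, Fin.elim0, Fin.elim0, Fin.elim0, by simp, fun k => k.elim0, ?_, ?_⟩
  · show (0 : T.V) - ∑ k : Fin 0, _ ∈ T.L
    rw [Finset.univ_eq_empty, Finset.sum_empty, sub_zero]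
    exact T.L.zero_mem
  · show (0 : T.V) - ∑ k : Fin 0, _ ∈ T.L
    rw [Finset.univ_eq_empty, Finset.sum_empty, sub_zero]
    exact T.L.zero_mem

theorem gr_add {T : AV} {γ : Cur T} {σ : ℂ ≃+* ℂ} {u u' v v' : T.V} (h : GR γ σ u u')
    (h' : GR γ σ v v') : GR γ σ (u + v) (u' + v') := by
  obtain ⟨n, e, x, y, he, hp, h1, h2⟩ := h
  obtain ⟨n', e', x', y', he', hp', h1', h2'⟩ := h'
  refine ⟨n + n', Fin.append e e', Fin.append x x', Fin.append y y', ?_, ?_, ?_, ?_⟩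
  · rw [Fin.sum_univ_add]
    simp only [Fin.append_left, Fin.append_right]
    rw [he, he', add_zero]
  · intro k
    refine Fin.addCases (fun a => ?_) (fun a => ?_) k
    · rw [Fin.append_left, Fin.append_left]
      exact hp a
    · rw [Fin.append_right, Fin.append_right]
      exact hp' a
  · show u + v - ∑ k, _ ∈ T.L
    rw [Fin.sum_univ_add]
    simp only [Fin.append_left, Fin.append_right]
    have h3 := T.L.add_mem h1 h1'
    have e1 : u - ∑ k, e k • γ.α (x k) (y k) + (v - ∑ k, e' k • γ.α (x' k) (y' k)) =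
        u + v - (∑ k, e k • γ.α (x k) (y k) + ∑ k, e' k • γ.α (x' k) (y' k)) := by abel
    rw [e1] at h3
    exact h3
  · show u' + v' - ∑ k, _ ∈ T.L
    rw [Fin.sum_univ_add]
    simp only [Fin.append_left, Fin.append_right]
    have h3 := T.L.add_mem h2 h2'
    have e1 : u' - ∑ k, e k • γ.α (σ (x k)) (σ (y k)) +
        (v' - ∑ k, e' k • γ.α (σ (x' k)) (σ (y' k))) =
        u' + v' - (∑ k, e k • γ.α (σ (x k)) (σ (y k)) +
          ∑ k, e' k • γ.α (σ (x' k)) (σ (y' k))) := by abel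
    rw [e1] at h3
    exact h3

theorem gr_nsmul {T : AV} {γ : Cur T} {σ : ℂ ≃+* ℂ} {u u' : T.V} (h : GR γ σ u u') (n : ℕ) :
    GR γ σ (n • u) (n • u') := by
  induction n with
  | zero =>
    rw [zero_nsmul, zero_nsmul]
    exact gr_zero γ σ
  | succ n ih =>
    rw [succ_nsmul, succ_nsmul]
    exact gr_add ih h

theorem lev {T : AV} {ℓ : ℕ} (hℓ : ℓ ≠ 0) {j k : ℕ} (hjk : j ≤ k) (v : T.V) :
    (ℓ ^ (k - j)) • (((ℓ : ℂ) ^ k)⁻¹ • v) = ((ℓ : ℂ) ^ j)⁻¹ • v := by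
  have h0 : (ℓ : ℂ) ≠ 0 := Nat.cast_ne_zero.2 hℓ
  rw [← Nat.cast_smul_eq_nsmul ℂ, smul_smul]
  have h1 : (((ℓ ^ (k - j) : ℕ) : ℂ)) * ((ℓ : ℂ) ^ k)⁻¹ = ((ℓ : ℂ) ^ j)⁻¹ := by
    push_cast
    have h2 : (ℓ : ℂ) ^ k = (ℓ : ℂ) ^ (k - j) * (ℓ : ℂ) ^ j := by
      rw [← pow_add, Nat.sub_add_cancel hjk]
    rw [h2]
    field_simp
  rw [h1]

end Cmr_aux

open Cmr_aux in
/-- **Cmr**. -/
theorem tCmr : S_Cmg → S_Cmr := by
  intro hC p T m r Z t b γ hM s A₀ ht hmod σ hσ σ' hσ' ℓ hℓ j k hjk a b' c h1 h2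
  have h3 := hC p T m r Z t b γ hM s A₀ ht hmod σ hσ σ' hσ' _ _ _ h1 h2
  have h4 := gr_nsmul h3 (ℓ ^ (k - j))
  rw [lev hℓ hjk, lev hℓ hjk] at h4
  exact h4

end TNF.OR
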