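import Pool.Agent.Lib.TNF.OR.Spec

/-!
# PROJECT TNF, package OR: module Lat (helper21)

`θ n = κ' n⁻¹ ∘ κ n`: it maps rational vectors to rational vectors, hence a multiple `M n • θ n` maps
the lattice of `J n` into the lattice of `J' n`; the points of `V / L` which are related by an automorphism
`σ` of `ℂ` are mapped to related points.
-/

set_option autoImplicit false

open Topology Metric HC HC.CC SEJ TATE

noncomputable section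

namespace TNF.OR

namespace Lat_aux

theorem t_inj {p N : ℕ} {D : Dt p N} (h : D.ok) {s : Fin p → ℂ} (hs : Function.Injective s)
    (n : Fin N) : Function.Injective (D.t s n) := by
  intro a b hab
  unfold Dt.t at hab
  apply h.inj n
  apply hs
  cases hk : D.k n with
  | none =>
    rw [hk] at hab
    exact hab
  | some l =>
    rw [hk] at hab
    exact sub_left_injective (inv_injective hab)

/-- The data of one factor. -/
structure Dat (J J' : AV) {m r : ℕ} {b : Fin (r + 1) → ℕ} (t : Fin (r + 1) → ℂ) (γ : Cur J)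
    (γ' : Cur J') (κ : J.V ≃ₗ[ℂ] (Ix m b → ℂ)) (κ' : J'.V ≃ₗ[ℂ] (Ix m b → ℂ)) (L : Set (Ix m b → ℂ)) :
    Prop where
  pts : ∀ x y, (x ∉ γ.S ∧ γ.P (x, y) = 0) ↔ (x, y) ∈ Pts m b t
  pts' : ∀ x y, (x ∉ γ'.S ∧ γ'.P (x, y) = 0) ↔ (x, y) ∈ Pts m b t
  rt : κ '' {v | Rt J v} = LQ m b t
  lat : κ' '' {v | In J' v} = L
  le : LZ m b t ⊆ L
  itg : ∀ P ∈ Pts m b t, ∀ Q ∈ Pts m b t, ∃ v, Itg m b t P Q v
  al : ∀ P Q v, Itg m b t P Q v → ∃ l, In J l ∧ κ (γ.α Q.1 Q.2 - γ.α P.1 P.2) - v = κ l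
  al' : ∀ P Q v, Itg m b t P Q v → κ' (γ'.α Q.1 Q.2 - γ'.α P.1 P.2) - v ∈ LZ m b t

section one

variable {J J' : AV} {m r : ℕ} {b : Fin (r + 1) → ℕ} {t : Fin (r + 1) → ℂ} {γ : Cur J}
  {γ' : Cur J'} {κ : J.V ≃ₗ[ℂ] (Ix m b → ℂ)} {κ' : J'.V ≃ₗ[ℂ] (Ix m b → ℂ)}
  {L : Set (Ix m b → ℂ)}

theorem rat (h : Dat J J' t γ γ' κ κ' L) (v : J.V) (hv : Rt J v) : Rt J' (κ'.symm (κ v)) := by
  have h1 : κ v ∈ LQ m b t := by
    rw [← h.rt]
    exact ⟨v, hv, rfl⟩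
  obtain ⟨k, hk, h2⟩ := h1
  have h3 := h.le h2
  rw [← h.lat] at h3
  obtain ⟨u, hu, h4⟩ := h3
  refine ⟨k, hk, ?_⟩
  have h5 : u = k • κ'.symm (κ v) := by
    apply κ'.injective
    rw [h4, map_nsmul, LinearEquiv.apply_symm_apply]
  rw [← h5]
  exact hu

theorem exM (h : Dat J J' t γ γ' κ κ' L) :
    ∃ M : ℕ, M ≠ 0 ∧ ∀ v ∈ J.L, M • κ'.symm (κ v) ∈ J'.L := by
  classical
  have hfin : Module.Finite ℤ J.L := ZLattice.module_finite ℝ J.L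
  have hfg : J.L.FG := Module.Finite.iff_fg.1 hfin
  obtain ⟨S, hS⟩ := hfg
  have h1 : ∀ x : J.V, ∃ k : ℕ, k ≠ 0 ∧ (x ∈ S → k • κ'.symm (κ x) ∈ J'.L) := by
    intro x
    by_cases hx : x ∈ S
    · have h2 : x ∈ J.L := by
        rw [← hS]
        exact Submodule.subset_span hx
      obtain ⟨k, hk, h3⟩ := rat h x ⟨1, one_ne_zero, by rw [one_smul]; exact h2⟩
      exact ⟨k, hk, fun _ => h3⟩
    · exact ⟨1, one_ne_zero, fun h' => absurd h' hx⟩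
  choose k hk h2 using h1
  refine ⟨∏ x ∈ S, k x, Finset.prod_ne_zero_iff.2 fun x _ => hk x, ?_⟩
  intro v hv
  rw [← hS] at hv
  induction hv using Submodule.span_induction with
  | mem x hx =>
    have hx' : x ∈ S := hx
    rw [← Finset.mul_prod_erase S k hx', mul_comm, mul_smul]
    exact J'.L.smul_of_tower_mem _ (h2 x hx')
  | zero =>
    rw [map_zero, map_zero, smul_zero]
    exact J'.L.zero_mem
  | add x y _ _ hx hy =>
    rw [map_add, map_add, smul_add]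
    exact J'.L.add_mem hx hy
  | smul a x _ hx =>
    rw [map_zsmul, map_zsmul, smul_comm]
    exact J'.L.smul_mem a hx

theorem dif (h : Dat J J' t γ γ' κ κ' L) {M : ℕ} (hM : ∀ v ∈ J.L, M • κ'.symm (κ v) ∈ J'.L)
    (P Q : ℂ × ℂ) (hP : P ∈ Pts m b t) (hQ : Q ∈ Pts m b t) :
    M • (κ'.symm (κ (γ.α Q.1 Q.2 - γ.α P.1 P.2)) - (γ'.α Q.1 Q.2 - γ'.α P.1 P.2)) ∈ J'.L := by
  obtain ⟨v, hv⟩ := h.itg P hP Q hQ
  obtain ⟨l, hl, h1⟩ := h.al P Q v hv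
  have h2 := h.le (h.al' P Q v hv)
  rw [← h.lat] at h2
  obtain ⟨l', hl', h3⟩ := h2
  have h4 : κ'.symm (κ (γ.α Q.1 Q.2 - γ.α P.1 P.2)) - (γ'.α Q.1 Q.2 - γ'.α P.1 P.2) =
      κ'.symm (κ l) - l' := by
    apply κ'.injective
    rw [map_sub κ' (κ'.symm _), map_sub κ' (κ'.symm _), LinearEquiv.apply_symm_apply,
      LinearEquiv.apply_symm_apply, h3, ← h1]
    abel
  rw [h4, smul_sub]
  exact J'.L.sub_mem (hM l hl) (J'.L.smul_of_tower_mem M hl')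

theorem dvs (h : Dat J J' t γ γ' κ κ' L) {M : ℕ} (hM : ∀ v ∈ J.L, M • κ'.symm (κ v) ∈ J'.L)
    {n : ℕ} (e : Fin n → ℤ) (he : ∑ k, e k = 0) (R : Fin n → ℂ × ℂ) (hR : ∀ k, R k ∈ Pts m b t)
    (a : J.V) (ha : In J (a - ∑ k, e k • γ.α (R k).1 (R k).2)) :
    In J' (M • κ'.symm (κ a) - ∑ k, ((M : ℤ) * e k) • γ'.α (R k).1 (R k).2) := by
  have key : M • κ'.symm (κ a) - ∑ k, ((M : ℤ) * e k) • γ'.α (R k).1 (R k).2 =
      M • κ'.symm (κ (a - ∑ k, e k • γ.α (R k).1 (R k).2)) +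
      ∑ k, e k • (M • (κ'.symm (κ (γ.α (R k).1 (R k).2)) - γ'.α (R k).1 (R k).2)) := by
    have h1 : ∑ k, e k • (M • (κ'.symm (κ (γ.α (R k).1 (R k).2)) - γ'.α (R k).1 (R k).2)) =
        M • κ'.symm (κ (∑ k, e k • γ.α (R k).1 (R k).2)) -
        ∑ k, ((M : ℤ) * e k) • γ'.α (R k).1 (R k).2 := by
      rw [map_sum, map_sum, Finset.smul_sum, ← Finset.sum_sub_distrib]
      refine Finset.sum_congr rfl fun k _ => ?_
      rw [map_zsmul, map_zsmul, smul_comm M (e k), smul_sub, smul_sub, mul_comm, mul_smul,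
        natCast_zsmul]
    rw [h1, map_sub κ, map_sub κ'.symm, smul_sub]
    abel
  unfold In
  rw [key]
  refine J'.L.add_mem (hM _ ha) ?_
  rcases n with _ | n
  · rw [Finset.univ_eq_empty, Finset.sum_empty]
    exact J'.L.zero_mem
  · have h2 : ∑ k, e k • (M • (κ'.symm (κ (γ.α (R k).1 (R k).2)) - γ'.α (R k).1 (R k).2)) =
        ∑ k, e k • (M • (κ'.symm (κ (γ.α (R k).1 (R k).2 - γ.α (R 0).1 (R 0).2)) -
          (γ'.α (R k).1 (R k).2 - γ'.α (R 0).1 (R 0).2))) := by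
      have h3 : ∑ k, e k • (M • (κ'.symm (κ (γ.α (R 0).1 (R 0).2)) - γ'.α (R 0).1 (R 0).2)) =
          (0 : J'.V) := by
        rw [← Finset.sum_smul, he, zero_smul]
      rw [← sub_zero (∑ k, e k • (M • (κ'.symm (κ (γ.α (R k).1 (R k).2)) -
        γ'.α (R k).1 (R k).2))), ← h3, ← Finset.sum_sub_distrib]
      refine Finset.sum_congr rfl fun k _ => ?_
      rw [← smul_sub, ← smul_sub, map_sub κ, map_sub κ'.symm]
      congr 2
      abel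
    rw [h2]
    exact J'.L.sum_mem fun k _ => J'.L.smul_mem _ (dif h hM (R 0) (R k) (hR 0) (hR k))

theorem gr (h : Dat J J' t γ γ' κ κ' L) {M : ℕ} (hM : ∀ v ∈ J.L, M • κ'.symm (κ v) ∈ J'.L)
    (σ : ℂ ≃+* ℂ) (a a' : J.V) (ha : GR γ σ a a') :
    GR γ' σ (M • κ'.symm (κ a)) (M • κ'.symm (κ a')) := by
  obtain ⟨n, e, x, y, he, hxy, h1, h2⟩ := ha
  have h3 : ∀ k, (x k, y k) ∈ Pts m b t := fun k => (h.pts _ _).1 ⟨(hxy k).1, (hxy k).2.1⟩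
  have h4 : ∀ k, (σ (x k), σ (y k)) ∈ Pts m b t := fun k =>
    (h.pts _ _).1 ⟨(hxy k).2.2.1, (hxy k).2.2.2⟩
  refine ⟨n, fun k => (M : ℤ) * e k, x, y, ?_, ?_, ?_, ?_⟩
  · rw [← Finset.mul_sum, he, mul_zero]
  · intro k
    have h5 := (h.pts' _ _).2 (h3 k)
    have h6 := (h.pts' _ _).2 (h4 k)
    exact ⟨h5.1, h5.2, h6.1, h6.2⟩
  · exact dvs h hM e he (fun k => (x k, y k)) h3 a h1
  · exact dvs h hM e he (fun k => (σ (x k), σ (y k))) h4 a' h2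

/-- The map of the lattices. -/
def ph (κ : J.V ≃ₗ[ℂ] (Ix m b → ℂ)) (κ' : J'.V ≃ₗ[ℂ] (Ix m b → ℂ)) (M : ℕ)
    (hM : ∀ v ∈ J.L, M • κ'.symm (κ v) ∈ J'.L) : J.L →+ J'.L where
  toFun v := ⟨M • κ'.symm (κ (v : J.V)), hM v v.2⟩
  map_zero' := by
    apply Subtype.ext
    show M • κ'.symm (κ ((0 : J.L) : J.V)) = ((0 : J'.L) : J'.V)
    rw [ZeroMemClass.coe_zero, ZeroMemClass.coe_zero, map_zero, map_zero, smul_zero]
  map_add' u v := by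
    apply Subtype.ext
    show M • κ'.symm (κ ((u + v : J.L) : J.V)) =
      M • κ'.symm (κ (u : J.V)) + M • κ'.symm (κ (v : J.V))
    rw [Submodule.coe_add, map_add, map_add, smul_add]

theorem act (h : Dat J J' t γ γ' κ κ' L) {M : ℕ} (hM : ∀ v ∈ J.L, M • κ'.symm (κ v) ∈ J'.L)
    (σ : ℂ ≃+* ℂ) (ℓ : ℕ) [Fact ℓ.Prime] (f f' : H1 J' ℓ) (hf : IsAct γ' σ ℓ f f') :
    IsAct γ σ ℓ (f.comp (ph κ κ' M hM)) (f'.comp (ph κ κ' M hM)) := by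
  refine ⟨fun v => hf.1 _, fun n v v' hv => ?_⟩
  have h1 := gr h hM σ _ _ hv
  have h2 : ∀ u : J.L, M • κ'.symm (κ (mu ((ℓ : ℂ) ^ n)⁻¹ (u : J.V))) =
      mu ((ℓ : ℂ) ^ n)⁻¹ ((ph κ κ' M hM u : J'.L) : J'.V) := by
    intro u
    show M • κ'.symm (κ ((((ℓ : ℂ) ^ n)⁻¹) • (u : J.V))) =
      (((ℓ : ℂ) ^ n)⁻¹) • (M • κ'.symm (κ (u : J.V)))
    rw [map_smul, map_smul, smul_comm]
  rw [h2, h2] at h1
  exact hf.2 n _ _ h1

theorem pb {T : AV} {g : T.V → J.V} {M : ℕ} (hM : ∀ v ∈ J.L, M • κ'.symm (κ v) ∈ J'.L)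
    {ℓ : ℕ} [Fact ℓ.Prime] (f : H1 J' ℓ) (F : H1 T ℓ)
    (hF : IsPb (fun v => κ'.symm (κ (g v)) : T.V → J'.V) f F) :
    IsPb g (f.comp (ph κ κ' M hM)) ((M : ℚ_[ℓ]) • F) := by
  intro k v w hw
  have h1 : ((ph κ κ' M hM w : J'.L) : J'.V) = (M * k) • κ'.symm (κ (g (v : T.V))) := by
    show M • κ'.symm (κ (w : J.V)) = _
    rw [hw, map_nsmul, map_nsmul, mul_smul]
  have h2 := hF (M * k) v _ h1
  show (k : ℚ_[ℓ]) * ((M : ℚ_[ℓ]) * F v) = f (ph κ κ' M hM w)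
  rw [← h2, Nat.cast_mul]
  ring

end one

theorem pts_iff {J : AV} {m r : ℕ} {Z : J.V → J.V} {t : Fin (r + 1) → ℂ} {b : Fin (r + 1) → ℕ}
    {γ : Cur J} (h : IsMp J m Z t b γ) (x y : ℂ) :
    (x ∉ γ.S ∧ γ.P (x, y) = 0) ↔ (x, y) ∈ Pts m b t := by
  rw [h.P, h.S, sub_eq_zero]
  exact Iff.rfl

end Lat_aux

open Lat_aux

theorem tLat : StmtFA2 → S_Lat := by
  intro hFA p N Λ s J γ P J' Z' γ' κ' hs hTP T g hg
  have hD : ∀ n, Dat (J n) (J' n) (P.D.t s n) (γ n) (γ' n) (P.κ n) (κ' n)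
      ((Λ _ _ _ (P.ok.cv n)).L (P.D.t s n)) := fun n =>
    { pts := pts_iff (P.mp n)
      pts' := pts_iff (hTP.mp n)
      rt := P.rt n
      lat := hTP.lat n
      le := (Λ _ _ _ (P.ok.cv n)).le _ (t_inj P.ok hs n)
      itg := (hFA _ _ _ (P.ok.cv n)).1 _ (t_inj P.ok hs n)
      al := P.al n
      al' := hTP.al n }
  refine ⟨⟨fun n => ⟨fun u v => ?_, fun c v => ?_⟩, ?_, fun v hv n => rat (hD n) _ (hg.rat v hv n)⟩,
    ?_⟩
  · show (κ' n).symm (P.κ n (g n (u + v))) = (κ' n).symm (P.κ n (g n u)) +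
      (κ' n).symm (P.κ n (g n v))
    rw [(hg.lin n).map_add, map_add, map_add]
  · show (κ' n).symm (P.κ n (g n (c • v))) = c • (κ' n).symm (P.κ n (g n v))
    rw [(hg.lin n).map_smul, map_smul, map_smul]
  · exact (Equiv.piCongrRight fun n => ((P.κ n).trans (κ' n).symm).toEquiv).bijective.comp hg.bij
  · intro ℓ _ i c hc
    choose M hM0 hM using fun n => exM (hD n)
    obtain ⟨A, hA, hA', h1⟩ := hc
    refine ⟨A, hA, hA', fun σ hσ χ hχ k f f' F F' h2 => ?_⟩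
    have h3 := h1 σ hσ χ hχ k (fun a => (f a).comp (ph (P.κ (k a)) (κ' (k a)) _ (hM (k a))))
      (fun a => (f' a).comp (ph (P.κ (k a)) (κ' (k a)) _ (hM (k a))))
      (fun a => (M (k a) : ℚ_[ℓ]) • F a) (fun a => (M (k a) : ℚ_[ℓ]) • F' a)
      (fun a => ⟨act (hD (k a)) (hM (k a)) σ ℓ _ _ (h2 a).1, pb (hM (k a)) _ _ (h2 a).2.1,
        pb (hM (k a)) _ _ (h2 a).2.2⟩)
    rw [c.map_smul_univ, c.map_smul_univ, smul_eq_mul, smul_eq_mul] at h3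
    have h4 : (∏ a, (M (k a) : ℚ_[ℓ])) ≠ 0 :=
      Finset.prod_ne_zero_iff.2 fun a _ => Nat.cast_ne_zero.2 (hM0 (k a))
    apply mul_left_cancel₀ h4
    rw [h3]
    ring

end TNF.OR
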