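import Pool.Agent.Lib.TNF.OR.Spec

/-!
# PROJECT TNF, package OR, module Lv: another lattice in the same space
-/

set_option autoImplicit false

open Topology Metric HC HC.CC SEJ TATE

noncomputable section

namespace TNF.OR

namespace Lv_aux

/-- A subgroup `L'` with `N L' ⊆ L`, `L` discrete, is discrete. -/
theorem disc {V : Type} [NormedAddCommGroup V] [NormedSpace ℝ V] (L L' : Submodule ℤ V)
    [DiscreteTopology L] (N : ℕ) (hN : N ≠ 0) (h : ∀ v ∈ L', N • v ∈ L) :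
    DiscreteTopology L' := by
  have hf : Continuous (fun v : L' => (⟨N • (v : V), h v v.2⟩ : L)) :=
    Continuous.subtype_mk (continuous_subtype_val.const_smul N) _
  refine DiscreteTopology.of_continuous_injective hf ?_
  intro v w hvw
  have h1 : N • (v : V) = N • (w : V) := congrArg Subtype.val hvw
  have h2 : ((N : ℝ)) • (v : V) = (N : ℝ) • (w : V) := by
    rw [Nat.cast_smul_eq_nsmul, Nat.cast_smul_eq_nsmul]
    exact h1
  have h3 : (N : ℝ) ≠ 0 := Nat.cast_ne_zero.mpr hN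
  exact Subtype.ext (smul_right_injective V h3 h2)

/-- A subgroup `L'` with `N L ⊆ L'`, `L` a lattice, spans. -/
theorem latt {V : Type} [NormedAddCommGroup V] [NormedSpace ℝ V] (L L' : Submodule ℤ V)
    [DiscreteTopology L] [IsZLattice ℝ L] [DiscreteTopology L'] (N : ℕ) (hN : N ≠ 0)
    (h : ∀ v ∈ L, N • v ∈ L') : IsZLattice ℝ L' := by
  refine ⟨?_⟩
  rw [eq_top_iff, ← IsZLattice.span_top (K := ℝ) (L := L), Submodule.span_le]
  intro v hv
  have h1 : N • v ∈ Submodule.span ℝ (L' : Set V) := Submodule.subset_span (h v hv)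
  have h3 : (N : ℝ) ≠ 0 := Nat.cast_ne_zero.mpr hN
  have h2 : (N : ℝ)⁻¹ • (N • v) = v := by
    rw [← Nat.cast_smul_eq_nsmul ℝ, smul_smul, inv_mul_cancel₀ h3, one_smul]
  have h4 := Submodule.smul_mem _ ((N : ℝ)⁻¹) h1
  rw [h2] at h4
  exact h4

/-- The Riemann form `N ^ 2 E`. -/
theorem pol (T : AV) (L' : Submodule ℤ T.V) (N : ℕ) (hN : N ≠ 0) (h : ∀ v ∈ L', N • v ∈ T.L) :
    ∃ E : T.V →ₗ[ℝ] T.V →ₗ[ℝ] ℝ, (∀ u ∈ L', ∀ v ∈ L', ∃ n : ℤ, E u v = n) ∧
      (∀ u v, E u v = -E v u) ∧ (∀ u v, E (Complex.I • u) (Complex.I • v) = E u v) ∧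
      ∀ v, v ≠ 0 → 0 < E (Complex.I • v) v := by
  obtain ⟨E, h1, h2, h3, h4⟩ := T.pol
  have hN' : (0 : ℝ) < N := Nat.cast_pos.mpr (Nat.pos_of_ne_zero hN)
  have hE : ∀ u v, (((N : ℝ) ^ 2) • E) u v = (N : ℝ) ^ 2 * E u v := fun u v => rfl
  refine ⟨((N : ℝ) ^ 2) • E, ?_, ?_, ?_, ?_⟩
  · intro u hu v hv
    obtain ⟨n, hn⟩ := h1 _ (h u hu) _ (h v hv)
    refine ⟨n, ?_⟩
    rw [hE, ← hn, ← Nat.cast_smul_eq_nsmul ℝ, ← Nat.cast_smul_eq_nsmul ℝ, map_smul, map_smul,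
      LinearMap.smul_apply, smul_eq_mul, smul_eq_mul]
    ring
  · intro u v
    rw [hE, hE, h2 u v]
    ring
  · intro u v
    rw [hE, hE, h3 u v]
  · intro v hv
    rw [hE]
    exact mul_pos (pow_pos hN' 2) (h4 v hv)

end Lv_aux

theorem tLv : S_Lv := by
  intro T L' N hN h1 h2
  have hd : DiscreteTopology L' := Lv_aux.disc T.L L' N hN h1
  have hl : IsZLattice ℝ L' := Lv_aux.latt T.L L' N hN h2
  exact ⟨{ V := T.V, L := L', pol := Lv_aux.pol T L' N hN h1 }, LinearEquiv.refl ℂ T.V,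
    fun v => rfl, fun v => Iff.rfl⟩

end TNF.OR
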