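import Pool.Agent.Lib.TNF.OR.Spec

/-!
# PROJECT TNF, package OR, module Mod: `Gam` acts
-/

set_option autoImplicit false

open Topology Metric HC HC.CC SEJ TATE

noncomputable section

namespace TNF.OR

namespace Mod_aux

/-- The branch points are fixed. -/
lemma fix_t {p N : ℕ} (D : Dt p N) (s : Fin p → ℂ) (σ : ℂ ≃+* ℂ) (hs : ∀ i, σ (s i) = s i)
    (n : Fin N) : (fun j => σ (D.t s n j)) = D.t s n := by
  have h : ∀ (r : ℕ) (i : Fin (r + 1) → Fin p) (k : Option (Fin p)) (j : Fin (r + 1)),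
      σ (pt s i k j) = pt s i k j := by
    intro r i k j
    cases k with
    | none => exact hs _
    | some k =>
      change σ ((s (i j) - s k)⁻¹) = (s (i j) - s k)⁻¹
      rw [map_inv₀, map_sub, hs, hs]
  funext j
  exact h _ _ _ j

/-- The branch points are different. -/
lemma inj_t {p N : ℕ} (D : Dt p N) (h : D.ok) (s : Fin p → ℂ) (hs : Function.Injective s)
    (n : Fin N) : Function.Injective (D.t s n) := by
  have h1 : ∀ (r : ℕ) (i : Fin (r + 1) → Fin p) (_ : Function.Injective i) (k : Option (Fin p)),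
      Function.Injective (pt s i k) := by
    intro r i hi k
    cases k with
    | none => exact hs.comp hi
    | some k =>
      intro a b hab
      change (s (i a) - s k)⁻¹ = (s (i b) - s k)⁻¹ at hab
      exact hi (hs (sub_left_inj.1 (inv_injective hab)))
  exact h1 _ _ (h.inj n) _

/-- The membership in the lattice in the coordinates `κ`. -/
lemma in_iff {V W : Type} [AddCommGroup V] [AddCommGroup W] [Module ℂ V] [Module ℂ W]
    (κ : V ≃ₗ[ℂ] W) (p : V → Prop) (L : Set W) (h : κ '' {v | p v} = L) (v : V) :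
    p v ↔ κ v ∈ L := by
  rw [← h]
  constructor
  · intro hv
    exact ⟨v, hv, rfl⟩
  · rintro ⟨u, hu, huv⟩
    rwa [κ.injective huv] at hu

/-- The lattice is closed under addition. -/
lemma add_mem {m r : ℕ} {b : Fin (r + 1) → ℕ} (Λ : LPD m b) (t : Fin (r + 1) → ℂ)
    (ht : Function.Injective t) {u v : Ix m b → ℂ} (hu : u ∈ Λ.L t) (hv : v ∈ Λ.L t) :
    u + v ∈ Λ.L t := by
  have h1 := Λ.sub t ht 0 (Λ.zero t ht) v hv
  have h2 := Λ.sub t ht u hu (0 - v) h1
  rwa [zero_sub, sub_neg_eq_add] at h2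

end Mod_aux

open Mod_aux in
theorem tMod : S_Acg → S_Mod := by
  intro hA p N Λ D h s J Z γ κ hs hTP A hzA n σ hσ v v' hG hv
  have hGam : σ ∈ Gam D s := ⟨hσ.1, fun n => hσ.2 _ (hzA n)⟩
  have hAct := (hA p N Λ D h s J Z γ κ hs hTP σ hGam n v v').2 hG
  have ht : (fun j => σ (D.t s n j)) = D.t s n := fix_t D s σ hσ.1 n
  have hinj : Function.Injective (D.t s n) := inj_t D h s hs n
  obtain ⟨k, Q', Q, w, w', hw, hw', h1, h2⟩ := hAct
  have h3 : κ n v ∈ (Λ _ _ _ (h.cv n)).L (D.t s n) :=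
    (in_iff (κ n) (fun v => In (J n) v) _ (hTP.lat n) v).1 hv
  have h4 : ∑ a, w a ∈ (Λ _ _ _ (h.cv n)).L (D.t s n) := by
    have := add_mem (Λ _ _ _ (h.cv n)) _ hinj h1 h3
    rwa [sub_add_cancel] at this
  have h5 := (Λ _ _ _ (h.cv n)).aut σ (hσ.2 _ (hzA n)) _ hinj k Q' Q w w' hw hw' h4
  rw [ht] at h5 h2
  refine (in_iff (κ n) (fun v => In (J n) v) _ (hTP.lat n) v').2 ?_
  have h6 := (Λ _ _ _ (h.cv n)).sub _ hinj _ h5 _ h2
  rwa [sub_sub_cancel] at h6

end TNF.OR
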