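import Pool.Agent.Lib.TNF.OR.Spec
import Pool.Agent.Lib.TATE.Asm.Rc
import Pool.Agent.Lib.TATE.Asm.Mg
import Pool.Agent.Lib.TATE.Asm.Fo
import Pool.Agent.Lib.TATE.Asm.Main

/-!
# PROJECT TNF, package OR: the rational components of a Tate class belong to finite flat families
-/

set_option autoImplicit false

open Topology Metric HC HC.CC SEJ TATE

noncomputable section

namespace TNF.OR

namespace Orb_aux

/-- The limit of a sequence with finitely many values along an ultrafilter. -/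
theorem lim {K : ℕ} {O : Set (Fin K → ℂ)} (hO : O.Finite) (u : ℕ → (Fin K → ℂ)) (hu : ∀ k, u k ∈ O) :
    ∃ z ∈ O, {k | u k = z} ∈ Filter.hyperfilter ℕ := by
  have h1 : O ∈ (Filter.hyperfilter ℕ).map u :=
    Ultrafilter.mem_map.2 (Filter.univ_mem' hu)
  obtain ⟨z, hz, hz'⟩ := Ultrafilter.eq_pure_of_finite_mem hO h1
  refine ⟨z, hz, ?_⟩
  have h2 : ({z} : Set (Fin K → ℂ)) ∈ (Filter.hyperfilter ℕ).map u := by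
    rw [hz']
    exact Ultrafilter.mem_pure.2 rfl
  exact Ultrafilter.mem_map.1 h2

/-- Two sequences with the same limit agree infinitely often. -/
theorem freq {K : ℕ} {u u' : ℕ → (Fin K → ℂ)} {z : Fin K → ℂ}
    (h : {k | u k = z} ∈ Filter.hyperfilter ℕ) (h' : {k | u' k = z} ∈ Filter.hyperfilter ℕ) (j : ℕ) :
    ∃ k ≥ j, u k = u' k := by
  have h2 : {k | j ≤ k} ∈ Filter.hyperfilter ℕ := Nat.hyperfilter_le_atTop (Filter.mem_atTop j)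
  obtain ⟨k, ⟨hk1, hk2⟩, hk3⟩ :=
    Ultrafilter.nonempty_of_mem (Filter.inter_mem (Filter.inter_mem h h') h2)
  exact ⟨k, hk3, hk1.trans hk2.symm⟩

/-- `σ` preserves the lattice. -/
theorem act_mem {m r : ℕ} {b : Fin (r + 1) → ℕ} (Λ : LPD m b) {σ : ℂ ≃+* ℂ} {t : Fin (r + 1) → ℂ}
    (ht : Function.Injective t) (hσ : σ (ze m 1) = ze m 1) (hσt : ∀ j, σ (t j) = t j)
    {v v' : Ix m b → ℂ} (h : Act Λ σ t v v') (hv : v ∈ Λ.L t) : v' ∈ Λ.L t := by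
  obtain ⟨k, Q', Q, w, w', h1, h2, h3, h4⟩ := h
  have hst : (fun j => σ (t j)) = t := funext hσt
  have h5 : ∑ a, w a ∈ Λ.L t := by
    have h6 := Λ.sub t ht _ h3 _ (Λ.sub t ht _ (Λ.zero t ht) _ hv)
    have h7 : ∑ a, w a - v - (0 - v) = ∑ a, w a := by abel
    rwa [h7] at h6
  have h6 := Λ.aut σ hσ t ht k Q' Q w w' h1 h2 h5
  rw [hst] at h4 h6
  have h7 := Λ.sub t ht _ h6 _ h4
  have h8 : ∑ a, w' a - (∑ a, w' a - v') = v' := by abel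
  rwa [h8] at h7

end Orb_aux

open Orb_aux in
theorem tOrb : S_Tp → S_Rcp → S_Two → StmtPA1 → StmtPA3 → StmtPA5 → S_Cmp → S_Orb := by
  classical
  intro hTp hRcp hTwo hPA1 hPA3 hPA5 hCmp Λ Φ p N s J γ hs P T g hg G hG hGL ℓ hℓ X hL i c hc
  obtain ⟨A, n, x, C, hAf, hAa, hCr, hform, hinv⟩ :=
    hRcp p N Λ s J γ hs P T g hg G hG hGL ℓ i c hc
  refine ⟨n, x, C, hCr, hform, fun k => ⟨?_, fun w hw M hM => ?_⟩⟩
  · intro a ha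
    refine Main_aux.rtc_rt (hCr k)
      (fun i => a i ∘ₗ ((G : T.V →ₗ[ℂ] P.D.V).restrictScalars ℝ)) ?_
    intro i v hv
    exact ha i (G v) (hGL ▸ ⟨v, hv, rfl⟩)
  obtain ⟨J', Z', γ', κ', hTP⟩ : ∃ (J' : Fin N → AV) (Z' : ∀ n, (J' n).V → (J' n).V)
      (γ' : ∀ n, Cur (J' n)) (κ' : ∀ n, (J' n).V ≃ₗ[ℂ] (Ix (P.D.m n) (P.D.b n) → ℂ)),
      TP Λ P.D P.ok s J' Z' γ' κ' := by
    choose J' Z' γ' κ' h1 h2 h3 using fun n => hTp (J n) (P.D.m n) (P.D.r n) (P.Z n)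
      (P.D.t s n) (P.D.b n) (γ n) (P.ok.cv n) (Rc_aux.pt_inj hs (P.ok.inj n) _) (P.mp n)
      (P.κ n) (P.om n) (P.rt n) (P.al n) (Λ _ _ _ (P.ok.cv n))
    exact ⟨J', Z', γ', κ', h1, h2, h3⟩
  obtain ⟨c', hc'⟩ : ∃ c' : Cl P.D.V (2 * i),
      c' = psh ((G : T.V →ₗ[ℂ] P.D.V).restrictScalars ℝ) (C k) := ⟨_, rfl⟩
  rw [← hc']
  obtain ⟨K, y, hy⟩ := hAf.fin_embedding
  have hO := Mg_aux.conj_finite s y fun i => hAa _ (by rw [← hy]; exact ⟨i, rfl⟩)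
  have hfin := Mg_aux.bd_finite s w hs
  have h0F : (0 : ℂ) ∉ Bd s w := by
    intro hb
    apply hb
    have : ln s w 0 = s := by
      funext i
      simp [ln]
    rw [this]
    exact hs
  have hLw := hL w hw M hM
  choose σ hσ1 hσ2 hσ3 using fun (q : {q : (ℝ → ℂ) × (ℝ → (P.D.V ≃ₗ[ℝ] P.D.V)) //
    IsPth (Bd s w) q.1 0 0 ∧ IsTr M q.1 q.2}) (k : ℕ) => hLw q.1.1 q.2.1 q.1.2 q.2.2 k
  choose e heO he using fun (q : {q : (ℝ → ℂ) × (ℝ → (P.D.V ≃ₗ[ℝ] P.D.V)) //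
    IsPth (Bd s w) q.1 0 0 ∧ IsTr M q.1 q.2}) => lim hO (fun k i => σ q k (y i))
      fun k => ⟨σ q k, ⟨(hσ1 q k).1, fun a ha => absurd ha (Set.notMem_empty a)⟩, fun i => rfl⟩
  have hin : ∀ n, ∀ v ∈ (Λ _ _ _ (P.ok.cv n)).L (P.D.t s n),
      (Pi.single n v : P.D.V) ∈ LPs Λ P.D P.ok s := by
    intro n v hv n'
    by_cases hn : n' = n
    · subst hn
      rw [Pi.single_eq_same]
      exact hv
    · rw [Pi.single_eq_of_ne hn]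
      exact (Λ _ _ _ (P.ok.cv n')).zero _ (Rc_aux.pt_inj hs (P.ok.inj n') _)
  have key : ∀ q q' : {q : (ℝ → ℂ) × (ℝ → (P.D.V ≃ₗ[ℝ] P.D.V)) //
      IsPth (Bd s w) q.1 0 0 ∧ IsTr M q.1 q.2}, e q = e q' →
      psh (q.1.2 1 : P.D.V →ₗ[ℝ] P.D.V) c' = psh (q'.1.2 1 : P.D.V →ₗ[ℝ] P.D.V) c' := by
    intro q q' hee
    have hcG := Fo_aux.cat_pth q.2.1 q'.2.1
    obtain ⟨ψ, hψ⟩ := (hPA1 P.D.V (Bd s w) hfin M (cat q.1.1 q'.1.1) 0 0 hcG).1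
    obtain ⟨-, hcomp⟩ := hPA5 P.D.V (Bd s w) hfin M q.1.1 q'.1.1 0 0 q.2.1 q'.2.1 q.1.2 q'.1.2 ψ
      q.2.2 q'.2.2 hψ
    obtain ⟨η, hη⟩ := hCmp Φ p N P.D P.ok s w M hM q.1.1 0 0 q.2.1 q.1.2 q.2.2
    obtain ⟨η', hη'⟩ := hCmp Φ p N P.D P.ok s w M hM q'.1.1 0 0 q'.2.1 q'.1.2 q'.2.2
    obtain ⟨ξ, hξ⟩ := hCmp Φ p N P.D P.ok s w M hM (cat q.1.1 q'.1.1) 0 0 hcG ψ hψ
    have hcn : ∀ n v, η' n (ξ n v) = η n v := by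
      intro n v
      have h1 := congrFun (hcomp (Pi.single n v)) n
      rwa [hη', hξ, hη, Pi.single_eq_same] at h1
    have hψL : ∀ n, ∀ v ∈ (Λ _ _ _ (P.ok.cv n)).L (P.D.t s n),
        ξ n v ∈ (Λ _ _ _ (P.ok.cv n)).L (P.D.t s n) := by
      intro n v hv
      obtain ⟨τ, hτ, -, hτ'⟩ := hLw (cat q.1.1 q'.1.1) hcG ψ hψ 0
      have h1 := hτ' _ (hin n v hv) n
      rw [pow_zero, inv_one, one_smul, one_smul, hξ, Pi.single_eq_same] at h1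
      refine act_mem _ (Rc_aux.pt_inj hs (P.ok.inj n) _) (hτ.2 n) (fun j => ?_) h1 hv
      exact Rc_aux.fix_mem (A := ∅) ⟨hτ.1, fun a ha => absurd ha (Set.notMem_empty a)⟩
        (Rc_aux.pt_mem s _ _ j)
    have hact : ∀ (q : {q : (ℝ → ℂ) × (ℝ → (P.D.V ≃ₗ[ℝ] P.D.V)) //
        IsPth (Bd s w) q.1 0 0 ∧ IsTr M q.1 q.2})
        (η : ∀ n, (Ix (P.D.m n) (P.D.b n) → ℂ) ≃ₗ[ℝ] (Ix (P.D.m n) (P.D.b n) → ℂ)),
        (∀ v n, q.1.2 1 v n = η n (v n)) → ∀ k n, ∀ v ∈ (Λ _ _ _ (P.ok.cv n)).L (P.D.t s n),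
        Act (Λ _ _ _ (P.ok.cv n)) (σ q k) (P.D.t s n) (((ℓ : ℂ) ^ k)⁻¹ • v)
          (((ℓ : ℂ) ^ k)⁻¹ • η n v) := by
      intro q η hη k n v hv
      have h1 := hσ3 q k _ (hin n v hv) n
      rw [Pi.smul_apply, Pi.smul_apply, hη, Pi.single_eq_same] at h1
      exact h1
    have hGl := hTwo p N Λ P.D P.ok s J' Z' γ' κ' hs hTP ℓ hℓ.out.ne_zero A
      (fun n => (η n : (Ix (P.D.m n) (P.D.b n) → ℂ) →ₗ[ℝ] (Ix (P.D.m n) (P.D.b n) → ℂ)))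
      (fun n => (η' n : (Ix (P.D.m n) (P.D.b n) → ℂ) →ₗ[ℝ] (Ix (P.D.m n) (P.D.b n) → ℂ)))
      (fun n => (ξ n : (Ix (P.D.m n) (P.D.b n) → ℂ) →ₗ[ℝ] (Ix (P.D.m n) (P.D.b n) → ℂ)))
      hcn hψL (σ q) (σ q')
      (fun k => ⟨hσ1 q k, hσ1 q' k, fun ζ hζ => ⟨hσ2 q k ζ hζ, hσ2 q' k ζ hζ⟩,
        fun n v hv => ⟨hact q η hη k n v hv, hact q' η' hη' k n v hv⟩⟩) (by
        intro j
        obtain ⟨k, hk, hk'⟩ := freq (he q) (hee ▸ he q') j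
        refine ⟨k, hk, fun a ha => ?_⟩
        rw [← hy] at ha
        obtain ⟨i, rfl⟩ := ha
        exact congrFun hk' i)
    have h5 := hinv _ hGl k (ψ 1 : P.D.V →ₗ[ℝ] P.D.V) hξ
    rw [← hc'] at h5
    have h4 : (q.1.2 1 : P.D.V →ₗ[ℝ] P.D.V) =
        (q'.1.2 1 : P.D.V →ₗ[ℝ] P.D.V) ∘ₗ (ψ 1 : P.D.V →ₗ[ℝ] P.D.V) := by
      apply LinearMap.ext
      intro v
      exact (hcomp v).symm
    rw [h4, Fo_aux.psh_comp, h5]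
  refine hPA3 P.D.V (Bd s w) hfin M ∅ Set.countable_empty 0 h0F (Set.notMem_empty _) _ c' ?_
  let gf : (Fin K → ℂ) → Cl P.D.V (2 * i) := fun z =>
    if hq : ∃ q : {q : (ℝ → ℂ) × (ℝ → (P.D.V ≃ₗ[ℝ] P.D.V)) //
      IsPth (Bd s w) q.1 0 0 ∧ IsTr M q.1 q.2}, e q = z then
      psh (hq.choose.1.2 1 : P.D.V →ₗ[ℝ] P.D.V) c' else 0
  refine (hO.image gf).subset ?_
  rintro c'' ⟨δ, φ, hδ, hφ, rfl⟩
  have hδ' : IsPth (Bd s w) δ 0 0 := Fo_aux.pth_mono Set.subset_union_left hδ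
  have hq : ∃ q : {q : (ℝ → ℂ) × (ℝ → (P.D.V ≃ₗ[ℝ] P.D.V)) //
      IsPth (Bd s w) q.1 0 0 ∧ IsTr M q.1 q.2}, e q = e ⟨(δ, φ), hδ', hφ⟩ :=
    ⟨⟨(δ, φ), hδ', hφ⟩, rfl⟩
  refine ⟨e ⟨(δ, φ), hδ', hφ⟩, heO _, ?_⟩
  have h5 : gf (e ⟨(δ, φ), hδ', hφ⟩) = psh (hq.choose.1.2 1 : P.D.V →ₗ[ℝ] P.D.V) c' := dif_pos hq
  rw [h5]
  exact key _ _ hq.choose_spec

end TNF.OR
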