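import Pool.Agent.Lib.TNF.OR.Spec
import Pool.Agent.Lib.TATE.Asm.Rc
import Pool.Agent.Lib.TATE.RC.Lft
import Pool.Agent.Lib.TATE.TO.All
import Pool.Agent.Lib.TATE.GA.Main

/-!
# PROJECT TNF, package OR: the rational components of a Tate class
-/

set_option autoImplicit false

open Topology Metric HC HC.CC SEJ TATE

noncomputable section

namespace TNF.OR

namespace Rcp_aux

/-- Roots of unity are algebraic. -/
theorem algO_ze {p : ℕ} (s : Fin p → ℂ) {m : ℕ} (hm : 3 ≤ m) : AlgO s (ze m 1) := by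
  have hm0 : m ≠ 0 := by omega
  have h1 : ze m 1 ^ m = 1 := by
    have h2 : (m : ℂ) ≠ 0 := Nat.cast_ne_zero.2 hm0
    have h3 : ze m 1 = Complex.exp (2 * Real.pi * Complex.I / m) := by
      unfold ze
      congr 1
      push_cast
      ring
    rw [h3, ← Complex.exp_nat_mul]
    have h4 : (m : ℂ) * (2 * Real.pi * Complex.I / m) = 2 * Real.pi * Complex.I := by
      field_simp
    rw [h4, Complex.exp_two_pi_mul_I]
  refine ⟨Polynomial.X ^ m - Polynomial.C 1,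
    Polynomial.X_pow_sub_C_ne_zero (Nat.pos_of_ne_zero hm0) 1, ?_⟩
  rw [map_sub, map_pow, Polynomial.aeval_X, Polynomial.aeval_C, h1, map_one, sub_self]

end Rcp_aux

open Rcp_aux in
theorem tRcp : S_Tp → S_Acg → S_Mod → S_Lat → S_Rcp := by
  intro hTp hAcg hMod hLat p N Λ s J γ hs P T g hg G hG hGL ℓ hℓ i c hc
  have hSum : TO.S_Sum := TO.tSum GA.cGA1 TO.tOm (TO.tInv TO.tBr) (TO.tCnt (TO.tInv TO.tBr))
    TO.tEqv
  obtain ⟨J', Z', γ', κ', hTP⟩ : ∃ (J' : Fin N → AV) (Z' : ∀ n, (J' n).V → (J' n).V)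
      (γ' : ∀ n, Cur (J' n)) (κ' : ∀ n, (J' n).V ≃ₗ[ℂ] (Ix (P.D.m n) (P.D.b n) → ℂ)),
      TP Λ P.D P.ok s J' Z' γ' κ' := by
    choose J' Z' γ' κ' h1 h2 h3 using fun n => hTp (J n) (P.D.m n) (P.D.r n) (P.Z n)
      (P.D.t s n) (P.D.b n) (γ n) (P.ok.cv n) (Rc_aux.pt_inj hs (P.ok.inj n) _) (P.mp n)
      (P.κ n) (P.om n) (P.rt n) (P.al n) (Λ _ _ _ (P.ok.cv n))
    exact ⟨J', Z', γ', κ', h1, h2, h3⟩
  obtain ⟨hg', hT⟩ := hLat p N Λ s J γ P J' Z' γ' κ' hs hTP T g hg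
  obtain ⟨A, hA, hAalg, hA'⟩ := hT ℓ i c hc
  obtain ⟨B, hB⟩ : ∃ B : Set ℂ, B = A ∪ Set.range fun n => ze (P.D.m n) 1 := ⟨_, rfl⟩
  have hAB : A ⊆ B := by
    rw [hB]
    exact Set.subset_union_left
  have hZB : ∀ n, ze (P.D.m n) 1 ∈ B := by
    intro n
    rw [hB]
    exact Or.inr ⟨n, rfl⟩
  have hBfin : B.Finite := by
    rw [hB]
    exact hA.union (Set.finite_range _)
  have hBalg : ∀ a ∈ B, AlgO s a := by
    rw [hB]
    rintro a (ha | ⟨n, rfl⟩)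
    · exact hAalg a ha
    · exact algO_ze s (P.ok.cv n).1
  have hmod : ∀ n, IsMod s (γ' n) B := hMod p N Λ P.D P.ok s J' Z' γ' κ' hs hTP B hZB
  have hal' : ∀ n Q R v, Itg (P.D.m n) (P.D.b n) (P.D.t s n) Q R v →
      ∃ l, In (J' n) l ∧ κ' n ((γ' n).α R.1 R.2 - (γ' n).α Q.1 Q.2) - v = κ' n l := by
    intro n Q R v h
    have h0 : Function.Injective (P.D.t s n) := Rc_aux.pt_inj hs (P.ok.inj n) _
    have h1 := (Λ _ _ _ (P.ok.cv n)).le _ h0 (hTP.al n Q R v h)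
    rw [← hTP.lat n] at h1
    obtain ⟨l, hl, hl'⟩ := h1
    exact ⟨l, hl, hl'.symm⟩
  have hconj : ∀ n, ∀ σ ∈ Fix s B, ∀ v, Rt (J' n) v → ∃ v', GR (γ' n) σ v v' := by
    intro n σ hσ v hv
    obtain ⟨M, Q', Q, w, h1, h2⟩ := hSum (J' n) (P.D.m n) (P.D.r n) (Z' n) (P.D.t s n)
      (P.D.b n) (γ' n) (P.ok.cv n) (Rc_aux.pt_inj hs (P.ok.inj n) _) (hTP.mp n) (κ' n) (hal' n)
      p s B (fun j => Rc_aux.pt_mem s _ _ j) hBfin hBalg (hmod n) v hv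
    exact Rc_aux.conj (hTP.mp n) (κ' n) (hal' n) σ
      (fun j => Rc_aux.fix_mem hσ (Rc_aux.pt_mem s _ _ j)) v Q' Q w
      (fun a => (h1 a).2.2.2.2) h2
  obtain ⟨K, x, C, hC, hrat, hinv⟩ := RC.rMain RC.rCh RC.rAct RC.rCmp p s T N J' γ' _ B
    hg' (RC.rLft T N J' _ hg') hmod hconj ℓ i c
    fun σ hσ => hA' σ ⟨hσ.1, fun a ha => hσ.2 a (hAB ha)⟩
  refine ⟨B, K, x, C, hBfin, hBalg, fun k a ha => hrat k a fun i v hv => ha i v hv, hC, ?_⟩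
  intro η hη k φ hφ
  set G' : T.V →ₗ[ℝ] P.D.V := (G : T.V →ₗ[ℂ] P.D.V).restrictScalars ℝ with hG'
  set Gi : P.D.V →ₗ[ℝ] T.V := (G.symm : P.D.V →ₗ[ℂ] T.V).restrictScalars ℝ with hGi
  have hGG : ∀ v, G' (Gi v) = v := fun v => G.apply_symm_apply v
  have h1 := hinv (Gi ∘ₗ φ ∘ₗ G')
    (fun n => (((κ' n).symm : (Ix (P.D.m n) (P.D.b n) → ℂ) →ₗ[ℂ] (J' n).V).restrictScalars ℝ) ∘ₗ
      η n ∘ₗ
      ((κ' n : (J' n).V →ₗ[ℂ] (Ix (P.D.m n) (P.D.b n) → ℂ)).restrictScalars ℝ)) (by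
      intro n v
      apply (κ' n).injective
      change κ' n ((κ' n).symm (P.κ n (g n (G.symm (φ (G v)))))) =
        κ' n ((κ' n).symm (η n (κ' n ((κ' n).symm (P.κ n (g n v))))))
      rw [LinearEquiv.apply_symm_apply, LinearEquiv.apply_symm_apply,
        LinearEquiv.apply_symm_apply, ← hG, ← hG, G.apply_symm_apply, hφ]) (by
      intro j
      obtain ⟨σ, hσ, hroot, h⟩ := hη j
      refine ⟨σ, hσ, hroot, fun n v => ?_⟩
      rw [← hAcg p N Λ P.D P.ok s J' Z' γ' κ' hs hTP σ ⟨hσ.1, fun n => hσ.2 _ (hZB n)⟩ n]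
      have h2 := h n (κ' n v) (by
        rw [← hTP.lat n]
        exact ⟨v, v.2, rfl⟩)
      change Act _ σ _ (κ' n (((ℓ : ℂ) ^ j)⁻¹ • (v : (J' n).V)))
        (κ' n (((ℓ : ℂ) ^ j)⁻¹ • (κ' n).symm (η n (κ' n v))))
      rw [map_smul, map_smul, LinearEquiv.apply_symm_apply]
      exact h2) k
  have h2 : psh φ (psh G' (C k)) = psh G' (psh (Gi ∘ₗ φ ∘ₗ G') (C k)) := by
    ext a
    change C k (fun i => (a i ∘ₗ φ) ∘ₗ G') = C k (fun i => (a i ∘ₗ G') ∘ₗ (Gi ∘ₗ φ ∘ₗ G'))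
    congr 1
    funext i
    refine LinearMap.ext fun v => ?_
    change a i (φ (G' v)) = a i (G' (Gi (φ (G' v))))
    rw [hGG]
  rw [h2, h1]

end TNF.OR
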