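import Pool.Agent.Lib.TNF.OR.Acg
import Pool.Agent.Lib.TNF.Iface2
import Pool.Agent.Lib.TATE.Asm.Av

/-!
# PROJECT TNF, package OR: the abelian variety `V / L t` (`StmtTP`) (helper4)
-/

set_option autoImplicit false

open Topology Metric HC HC.CC SEJ TATE

noncomputable section

namespace TNF.OR

/-- `S_Tp` in a stronger form. -/
def S_Tp2 : Prop :=
  ∀ (T : AV) (m r : ℕ) (Z : T.V → T.V) (t : Fin (r + 1) → ℂ) (b : Fin (r + 1) → ℕ) (γ : Cur T),
    Cvb m b → Function.Injective t → IsMp T m Z t b γ → ∀ κ : T.V ≃ₗ[ℂ] (Ix m b → ℂ),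
    (∀ x ∉ γ.S, ∀ y, γ.P (x, y) = 0 → κ (γ.ω x y) = om m b t (x, y)) →
    κ '' {v | Rt T v} = LQ m b t →
    (∀ P Q v, Itg m b t P Q v → ∃ l, In T l ∧ κ (γ.α Q.1 Q.2 - γ.α P.1 P.2) - v = κ l) →
    ∀ Λ : LPD m b, ∃ (T' : AV) (ι : T'.V ≃ₗ[ℂ] T.V) (γ' : Cur T'),
      (∀ x y, γ'.P (x, y) = γ.P (x, y)) ∧ γ'.S = γ.S ∧ (∀ x y, ι (γ'.ω x y) = γ.ω x y) ∧
      (∀ v, In T' v ↔ κ (ι v) ∈ Λ.L t) ∧
      ∀ P Q v, Itg m b t P Q v → κ (ι (γ'.α Q.1 Q.2 - γ'.α P.1 P.2)) - v ∈ LZ m b t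

namespace TP_aux

/-- `GR` gives `Act`. -/
theorem act_of_gr (hDv : S_Dv) (hFA : StmtFA2) {T : AV} {m r : ℕ} {Z : T.V → T.V}
    {t : Fin (r + 1) → ℂ} {b : Fin (r + 1) → ℕ} (hC : Cvb m b) (Λ : LPD m b)
    (ht : Function.Injective t) {γ : Cur T} (hmp : IsMp T m Z t b γ) (κ : T.V ≃ₗ[ℂ] (Ix m b → ℂ))
    (lat : κ '' {v | In T v} = Λ.L t)
    (al : ∀ P Q v, Itg m b t P Q v → κ (γ.α Q.1 Q.2 - γ.α P.1 P.2) - v ∈ LZ m b t)
    (σ : ℂ ≃+* ℂ) (hst : (fun j => σ (t j)) = t) (v v' : T.V) (h : GR γ σ v v') :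
    Act Λ σ t (κ v) (κ v') := by
  have yek : ∀ x y : ℂ, x ∉ γ.S → γ.P (x, y) = 0 → (x, y) ∈ Pts m b t := by
    intro x y hx hy
    rw [hmp.S] at hx
    rw [hmp.P, sub_eq_zero] at hy
    exact ⟨hx, hy⟩
  unfold Act
  rw [hst]
  obtain ⟨l, e, x, y, he, hxy, h1, h2⟩ := h
  obtain ⟨k, Q', Q, hQ', hQ, hsum⟩ := hDv (ℂ × ℂ) l e (fun i => (x i, y i)) he
  have hp : ∀ i, (x i, y i) ∈ Pts m b t ∧ (σ (x i), σ (y i)) ∈ Pts m b t := fun i =>
    ⟨yek _ _ (hxy i).1 (hxy i).2.1, yek _ _ (hxy i).2.2.1 (hxy i).2.2.2⟩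
  have hq : ∀ R : ℂ × ℂ, (∃ i, R = (x i, y i)) → R ∈ Pts m b t ∧ (σ R.1, σ R.2) ∈ Pts m b t := by
    rintro R ⟨i, rfl⟩
    exact hp i
  have hint := (hFA m r b hC).1 t ht
  choose w hw using fun a => hint _ (hq _ (hQ' a)).1 _ (hq _ (hQ a)).1
  choose w' hw' using fun a => hint _ (hq _ (hQ' a)).2 _ (hq _ (hQ a)).2
  refine ⟨k, Q', Q, w, w', hw, hw', ?_, ?_⟩
  · refine (Acg_aux.one Λ ht κ lat al k Q' Q w hw v).2 ?_
    have := hsum T.V (fun R => γ.α R.1 R.2)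
    simp only at this
    rw [this]
    exact h1
  · refine (Acg_aux.one Λ ht κ lat al k
      (fun a => (σ (Q' a).1, σ (Q' a).2)) (fun a => (σ (Q a).1, σ (Q a).2)) w' hw' v').2 ?_
    have := hsum T.V (fun R => γ.α (σ R.1) (σ R.2))
    simp only at this ⊢
    rw [this]
    exact h2

/-- The automorphisms which fix `t`, `ze m 1` act. -/
theorem isMod (hDv : S_Dv) (hFA : StmtFA2) {T : AV} {m r : ℕ} {Z : T.V → T.V}
    {t : Fin (r + 1) → ℂ} {b : Fin (r + 1) → ℕ} (hC : Cvb m b) (Λ : LPD m b)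
    (ht : Function.Injective t) {γ : Cur T} (hmp : IsMp T m Z t b γ) (κ : T.V ≃ₗ[ℂ] (Ix m b → ℂ))
    (lat : κ '' {v | In T v} = Λ.L t)
    (al : ∀ P Q v, Itg m b t P Q v → κ (γ.α Q.1 Q.2 - γ.α P.1 P.2) - v ∈ LZ m b t)
    {p : ℕ} (s : Fin p → ℂ) (hts : ∀ j, t j ∈ IntermediateField.adjoin ℚ (Set.range s)) :
    IsMod s γ {ze m 1} := by
  intro σ hσ v v' hG hv
  have hst : (fun j => σ (t j)) = t := funext fun j => Rc_aux.fix_mem hσ (hts j)
  obtain ⟨k, Q', Q, w, w', hw, hw', h1, h2⟩ :=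
    act_of_gr hDv hFA hC Λ ht hmp κ lat al σ hst v v' hG
  have h3 : κ v ∈ Acg_aux.grp Λ t ht := by
    rw [Acg_aux.mem_grp, ← lat]
    exact ⟨v, hv, rfl⟩
  have h4 : ∑ a, w a ∈ Acg_aux.grp Λ t ht := by
    have h5 := add_mem ((Acg_aux.mem_grp Λ t ht _).2 h1) h3
    rwa [sub_add_cancel] at h5
  have h5 := Λ.aut σ (hσ.2 _ rfl) t ht k Q' Q w w' hw hw' h4
  rw [hst] at h5 h2
  have h6 : κ v' ∈ Acg_aux.grp Λ t ht := by
    have h7 := sub_mem ((Acg_aux.mem_grp Λ t ht _).2 h5) ((Acg_aux.mem_grp Λ t ht _).2 h2)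
    rwa [sub_sub_cancel] at h7
  rw [Acg_aux.mem_grp, ← lat] at h6
  obtain ⟨u, hu, hu'⟩ := h6
  rw [← κ.injective hu']
  exact hu

end TP_aux

open TP_aux in
theorem tTP : S_Dv → S_Tp2 → StmtFA2 → StmtFA3 → StmtFA4 → StmtTP := by
  intro hDv hTp hFA2 hFA3 hFA4 m r b t Λ hC hr ht
  obtain ⟨T, Z, hN⟩ := hFA4 m r b t hC hr ht
  obtain ⟨γ, hmp⟩ := Av_aux.mp_of_new hN
  obtain ⟨κ, hκZ, hom, hrt, hal⟩ := hFA3 T m r Z t b γ hC ht hN.cyc hN.dim hmp
  obtain ⟨T', ι, γ', hP, hS, hω, hIn, hal'⟩ := hTp T m r Z t b γ hC ht hmp κ hom hrt hal Λ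
  have hκ' : ∀ v, (ι.trans κ) v = κ (ι v) := fun v => rfl
  have hmp' : IsMp T' m (fun v => ι.symm (Z (ι v))) t b γ' := by
    refine ⟨fun x y => by rw [hP, hmp.P], by rw [hS, hmp.S], ?_, ?_⟩
    · intro x hx y hy
      rw [hS] at hx
      rw [hP] at hy
      have h1 := hmp.equ x hx y hy
      apply ι.injective
      rw [LinearEquiv.apply_symm_apply, hω, hω, h1]
    · intro u hu huc i hi
      obtain ⟨B, hB, hB'⟩ := hmp.dif u hu huc i hi
      refine ⟨fun v => B (ι v), ?_, ?_⟩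
      · refine ⟨fun x y => ?_, fun c x => ?_⟩
        · rw [map_add, hB.map_add]
        · rw [map_smul, hB.map_smul]
      · intro x hx y hy
        rw [hS] at hx
        rw [hP] at hy
        change B (ι (γ'.ω x y)) = _
        rw [hω]
        exact hB' x hx y hy
  have hlat : (ι.trans κ) '' {v | In T' v} = Λ.L t := by
    ext w
    constructor
    · rintro ⟨v, hv, rfl⟩
      exact (hIn v).1 hv
    · intro hw
      refine ⟨ι.symm (κ.symm w), ?_, ?_⟩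
      · change In T' _
        rw [hIn, LinearEquiv.apply_symm_apply, LinearEquiv.apply_symm_apply]
        exact hw
      · rw [hκ', LinearEquiv.apply_symm_apply, LinearEquiv.apply_symm_apply]
  have hZ : ∀ v, κ (ι (ι.symm (Z (ι v)))) = Zd m b (κ (ι v)) := by
    intro v
    rw [LinearEquiv.apply_symm_apply, hκZ]
  refine ⟨T', fun v => ι.symm (Z (ι v)), γ', ι.trans κ, ?_, ?_, hmp', hZ, ?_, ?_, hlat, ?_, ?_⟩
  · refine ⟨?_, ?_, ?_⟩
    · have hl := hN.cyc.1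
      refine ⟨fun x y => ?_, fun c x => ?_⟩
      · rw [map_add, hl.map_add, map_add]
      · rw [map_smul, hl.map_smul, map_smul]
    · intro v hv
      rw [hIn] at hv ⊢
      rw [hZ]
      exact Λ.stb t ht _ hv
    · intro v
      have h1 := hN.cyc.2.2 (ι v)
      have h2 : ∀ k, (fun v => ι.symm (Z (ι v)))^[k] v = ι.symm (Z^[k] (ι v)) := by
        intro k
        induction k with
        | zero => rw [Function.iterate_zero, Function.iterate_zero, id, id,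
            LinearEquiv.symm_apply_apply]
        | succ k ih =>
          rw [Function.iterate_succ_apply', Function.iterate_succ_apply', ih,
            LinearEquiv.apply_symm_apply]
      have h3 : ∑ k ∈ Finset.range (m + 1), mu ((Polynomial.cyclotomic m ℤ).coeff k)
          ((fun v => ι.symm (Z (ι v)))^[k] v) =
          ι.symm (∑ k ∈ Finset.range (m + 1), mu ((Polynomial.cyclotomic m ℤ).coeff k)
            (Z^[k] (ι v))) := by
        rw [map_sum]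
        refine Finset.sum_congr rfl fun k _ => ?_
        rw [h2]
        exact (map_smul ι.symm _ _).symm
      rw [h3, h1, map_zero]
  · rw [← hN.dim, ι.finrank_eq]
  · intro x hx y hy
    rw [hS] at hx
    rw [hP] at hy
    rw [hκ', hω]
    exact hom x hx y hy
  · -- rational vectors
    ext w
    constructor
    · rintro ⟨v, ⟨k, hk, hkv⟩, rfl⟩
      have h1 : κ (ι (k • v)) ∈ Λ.L t := (hIn _).1 hkv
      obtain ⟨M, hM, hM'⟩ := Λ.fin t ht
      refine ⟨M * k, mul_ne_zero hM hk, ?_⟩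
      have h2 := hM' _ h1
      rw [map_nsmul, map_nsmul, ← mul_smul] at h2
      exact h2
    · rintro ⟨k, hk, hkw⟩
      refine ⟨ι.symm (κ.symm w), ⟨k, hk, ?_⟩, ?_⟩
      · change In T' _
        rw [hIn, map_nsmul, map_nsmul, LinearEquiv.apply_symm_apply, LinearEquiv.apply_symm_apply]
        exact Λ.le t ht hkw
      · rw [hκ', LinearEquiv.apply_symm_apply, LinearEquiv.apply_symm_apply]
  · intro P Q v hv
    have h1 := Λ.le t ht (hal' P Q v hv)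
    rw [← hlat] at h1
    obtain ⟨l, hl, hl'⟩ := h1
    exact ⟨l, hl, hl'.symm⟩
  · intro p s hts
    exact isMod hDv hFA2 hC Λ ht hmp' (ι.trans κ) hlat hal' s hts

end TNF.OR
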