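import Pool.Agent.Lib.TNF.OR.Spec
import Pool.Agent.Lib.TATE.TO.Br

/-!
# The abelian variety `V / L` with its map of the curve (proof of `S_Tp`, helper99)
-/

set_option autoImplicit false

open Topology Metric HC HC.CC SEJ TATE

noncomputable section

namespace TNF.OR.Tp_aux

/-- a common denominator of finitely many vectors -/
theorem common {W : Type} [AddCommGroup W] (L : Set W) (h0 : (0 : W) ∈ L)
    (hs : ∀ u ∈ L, ∀ v ∈ L, u - v ∈ L) {X : Type} [AddCommGroup X] (f : X →+ W)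
    (M : Submodule ℤ X) (hM : M.FG) (h : ∀ v ∈ M, ∃ k : ℕ, k ≠ 0 ∧ k • f v ∈ L) :
    ∃ N : ℕ, N ≠ 0 ∧ ∀ v ∈ M, N • f v ∈ L := by
  classical
  have hneg : ∀ u ∈ L, -u ∈ L := fun u hu => by
    have := hs 0 h0 u hu
    rwa [zero_sub] at this
  have hadd : ∀ u ∈ L, ∀ v ∈ L, u + v ∈ L := fun u hu v hv => by
    have := hs u hu (-v) (hneg v hv)
    rwa [sub_neg_eq_add] at this
  let G : AddSubgroup W :=
    { carrier := L
      zero_mem' := h0
      add_mem' := fun {u v} hu hv => hadd u hu v hv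
      neg_mem' := fun {u} hu => hneg u hu }
  have hG : ∀ u, u ∈ G ↔ u ∈ L := fun u => Iff.rfl
  obtain ⟨S, hS⟩ := hM
  have hk : ∀ s : X, ∃ k : ℕ, k ≠ 0 ∧ (s ∈ S → k • f s ∈ G) := by
    intro s
    by_cases hsS : s ∈ S
    · obtain ⟨k, hk0, hk⟩ := h s (by rw [← hS]; exact Submodule.subset_span hsS)
      exact ⟨k, hk0, fun _ => hk⟩
    · exact ⟨1, one_ne_zero, fun h' => absurd h' hsS⟩
  choose k hk0 hk using hk
  refine ⟨∏ s ∈ S, k s, Finset.prod_ne_zero_iff.2 fun s _ => hk0 s, ?_⟩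
  intro v hv
  rw [← hS] at hv
  show (∏ s ∈ S, k s) • f v ∈ G
  induction hv using Submodule.span_induction with
  | mem x hx =>
    have hx' : x ∈ S := hx
    obtain ⟨c, hc⟩ := Finset.dvd_prod_of_mem k hx'
    rw [hc, mul_comm, mul_smul]
    exact G.nsmul_mem (hk x hx') c
  | zero =>
    rw [map_zero, smul_zero]
    exact G.zero_mem
  | add x y _ _ hx hy =>
    rw [map_add, smul_add]
    exact G.add_mem hx hy
  | smul a x _ hx =>
    rw [map_zsmul, smul_comm]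
    exact G.zsmul_mem hx a

end TNF.OR.Tp_aux

namespace TNF.OR

open Tp_aux

/-- The construction of **Tp**, strong form. -/
theorem tTp2 : S_Lv → StmtFA2 → ∀ (T : AV) (m r : ℕ) (Z : T.V → T.V) (t : Fin (r + 1) → ℂ)
    (b : Fin (r + 1) → ℕ) (γ : Cur T), Cvb m b → Function.Injective t → IsMp T m Z t b γ →
    ∀ κ : T.V ≃ₗ[ℂ] (Ix m b → ℂ),
    (∀ x ∉ γ.S, ∀ y, γ.P (x, y) = 0 → κ (γ.ω x y) = om m b t (x, y)) →
    κ '' {v | Rt T v} = LQ m b t →
    (∀ P Q v, Itg m b t P Q v → ∃ l, In T l ∧ κ (γ.α Q.1 Q.2 - γ.α P.1 P.2) - v = κ l) →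
    ∀ Λ : LPD m b, ∃ (T' : AV) (ι : T'.V ≃ₗ[ℂ] T.V) (γ' : Cur T'),
      (∀ x y, γ'.P (x, y) = γ.P (x, y)) ∧ γ'.S = γ.S ∧ (∀ x y, ι (γ'.ω x y) = γ.ω x y) ∧
      (∀ v, In T' v ↔ κ (ι v) ∈ Λ.L t) ∧
      ∀ P Q v, Itg m b t P Q v → κ (ι (γ'.α Q.1 Q.2 - γ'.α P.1 P.2)) - v ∈ LZ m b t := by
  classical
  intro hLv hFA T m r Z t b γ hb ht hmp κ hω hLQ hα Λ
  obtain ⟨F1, F2, F3, F4, -, -⟩ := hFA m r b hb
  have hz := Λ.zero t ht
  have hsub := Λ.sub t ht
  have hle := Λ.le t ht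
  obtain ⟨N₁, hN₁, hfin⟩ := Λ.fin t ht
  have hneg : ∀ u ∈ Λ.L t, -u ∈ Λ.L t := fun u hu => by
    have := hsub 0 hz u hu
    rwa [zero_sub] at this
  have hadd : ∀ u ∈ Λ.L t, ∀ v ∈ Λ.L t, u + v ∈ Λ.L t := fun u hu v hv => by
    have := hsub u hu (-v) (hneg v hv)
    rwa [sub_neg_eq_add] at this
  let G : AddSubgroup (Ix m b → ℂ) :=
    { carrier := Λ.L t
      zero_mem' := hz
      add_mem' := fun {u v} hu hv => hadd u hu v hv
      neg_mem' := fun {u} hu => hneg u hu }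
  let L' : Submodule ℤ T.V := (G.comap (κ : T.V →+ (Ix m b → ℂ))).toIntSubmodule
  have hL' : ∀ v, v ∈ L' ↔ κ v ∈ Λ.L t := fun v => Iff.rfl
  have hper : ∀ w ∈ LZ m b t, ∃ l, In T l ∧ w = κ l := by
    rintro w ⟨P, hP⟩
    obtain ⟨l, hl, h⟩ := hα P P w hP
    refine ⟨-l, T.L.neg_mem hl, ?_⟩
    rw [sub_self, map_zero, zero_sub] at h
    rw [map_neg, ← h, neg_neg]
  have hfg : T.L.FG := by
    have : Module.Finite ℤ T.L := ZLattice.module_finite ℝ T.L
    exact Module.Finite.iff_fg.1 this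
  obtain ⟨N₂, hN₂, hden⟩ := common (Λ.L t) hz hsub (κ : T.V →+ (Ix m b → ℂ)) T.L hfg
    (fun v hv => by
      have h1 : κ v ∈ LQ m b t := by
        rw [← hLQ]
        exact ⟨v, ⟨1, one_ne_zero, by rwa [one_smul]⟩, rfl⟩
      obtain ⟨k, hk, h2⟩ := h1
      exact ⟨k, hk, hle h2⟩)
  obtain ⟨T', ι, hnorm, hIn⟩ := hLv T L' (N₁ * N₂) (mul_ne_zero hN₁ hN₂)
    (fun v hv => by
      obtain ⟨l, hl, h⟩ := hper _ (hfin _ ((hL' v).1 hv))
      rw [← map_nsmul] at h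
      have h3 : N₁ • v = l := κ.injective h
      rw [mul_comm, mul_smul, h3]
      exact T.L.nsmul_mem hl N₂)
    (fun v hv => by
      rw [hL', mul_smul, map_nsmul, map_nsmul]
      exact G.nsmul_mem (hden v hv) N₁)
  let κ' : T'.V ≃ₗ[ℂ] (Ix m b → ℂ) := ι.trans κ
  have hκ' : ∀ v, κ' v = κ (ι v) := fun v => rfl
  have hκs : ∀ w, κ'.symm w = ι.symm (κ.symm w) := fun w => rfl
  have hIn' : ∀ v, In T' v ↔ κ' v ∈ Λ.L t := fun v => (hIn v).trans (hL' _)
  have hns : ∀ v, ‖ι.symm v‖ = ‖v‖ := fun v => by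
    rw [← hnorm, LinearEquiv.apply_symm_apply]
  -- base point and the integrals
  obtain ⟨P₀, hP₀⟩ : ∃ P₀ : ℂ × ℂ, ∀ P ∈ Pts m b t, P₀ ∈ Pts m b t := by
    by_cases h : ∃ P, P ∈ Pts m b t
    · obtain ⟨P, hP⟩ := h
      exact ⟨P, fun _ _ => hP⟩
    · exact ⟨0, fun P hP => absurd ⟨P, hP⟩ h⟩
  have hI : ∀ P : ℂ × ℂ, ∃ v, P ∈ Pts m b t → Itg m b t P₀ P v := by
    intro P
    by_cases hP : P ∈ Pts m b t
    · obtain ⟨v, hv⟩ := F1 t ht P₀ (hP₀ P hP) P hP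
      exact ⟨v, fun _ => hv⟩
    · exact ⟨0, fun h => absurd h hP⟩
  choose v hv using hI
  have hPt : ∀ x y, x ∉ γ.S → γ.P (x, y) = 0 → (x, y) ∈ Pts m b t := by
    intro x y hx hy
    rw [hmp.P] at hy
    rw [hmp.S] at hx
    exact ⟨hx, sub_eq_zero.1 hy⟩
  have hPt' : ∀ x y, (x, y) ∈ Pts m b t → γ.P (x, y) = 0 := by
    intro x y hxy
    rw [hmp.P]
    exact sub_eq_zero.2 hxy.2
  let γ' : Cur T' :=
    { P := γ.P
      S := γ.S
      α := fun x y => κ'.symm (v (x, y))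
      ω := fun x y => ι.symm (γ.ω x y)
      poly := γ.poly
      fin := γ.fin
      et := γ.et
      map := by
        intro x₀ hx₀ y₀ hy₀
        have hP := hPt x₀ y₀ hx₀ hy₀
        obtain ⟨ε, η, V, hε, hη, hηd, -, hV, -⟩ := TO.tBr m r b t hb ht (x₀, y₀) hP
        refine ⟨η, fun x => κ'.symm (v (x₀, y₀) + V x), hη, ?_, ?_⟩
        · exact hηd.continuousOn.continuousAt (ball_mem_nhds _ hε)
        · filter_upwards [ball_mem_nhds x₀ hε] with x hx
          obtain ⟨h1, h2, h3⟩ := hV x hx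
          refine ⟨hPt' _ _ h1, ?_, ?_⟩
          · rw [hIn', map_sub, LinearEquiv.apply_symm_apply, LinearEquiv.apply_symm_apply]
            exact hle (F4 t ht _ _ _ (hv _ h1) _ (F2 t ht _ _ _ _ _ (hv _ hP) h3))
          · have h4 : om m b t (x, η x) = κ (γ.ω x (η x)) := by
              have h6 : x ∉ γ.S := by
                rw [hmp.S]
                exact h1.1
              exact (hω x h6 _ (hPt' _ _ h1)).symm
            have h5 : κ'.symm (om m b t (x, η x)) = ι.symm (γ.ω x (η x)) := by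
              rw [h4, hκs, LinearEquiv.symm_apply_apply]
            rw [← h5]
            have h7 : HasDerivAt (fun x => v (x₀, y₀) + V x) (om m b t (x, η x)) x :=
              h2.const_add _
            exact ((LinearMap.toContinuousLinearMap
              (κ'.symm : (Ix m b → ℂ) →ₗ[ℂ] T'.V)).hasFDerivAt.comp_hasDerivAt x h7)
      area := by
        have h1 : (fun x => ∑ᶠ y ∈ {y | γ.P (x, y) = 0}, ‖ι.symm (γ.ω x y)‖ ^ 2) =
            fun x => ∑ᶠ y ∈ {y | γ.P (x, y) = 0}, ‖γ.ω x y‖ ^ 2 := by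
          simp only [hns]
        rw [h1]
        exact γ.area }
  refine ⟨T', ι, γ', fun x y => rfl, rfl, fun x y => LinearEquiv.apply_symm_apply _ _, hIn', ?_⟩
  intro P Q w hw
  obtain ⟨hP, hQ, -⟩ := F3 t ht P Q w hw
  show κ' (κ'.symm (v (Q.1, Q.2)) - κ'.symm (v (P.1, P.2))) - w ∈ LZ m b t
  rw [map_sub, LinearEquiv.apply_symm_apply, LinearEquiv.apply_symm_apply, sub_sub]
  exact F4 t ht _ _ _ (hv Q hQ) _ (F2 t ht _ _ _ _ _ (hv P hP) hw)

/-- **Tp**. -/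
theorem tTp : S_Lv → StmtFA2 → S_Tp := by
  intro hLv hFA T m r Z t b γ hb ht hmp κ hω hLQ hα Λ
  obtain ⟨T', ι, γ', hP, hS, hO, hIn, hA⟩ :=
    tTp2 hLv hFA T m r Z t b γ hb ht hmp κ hω hLQ hα Λ
  have hO' : ∀ x y, γ'.ω x y = ι.symm (γ.ω x y) := fun x y => by
    rw [← hO, LinearEquiv.symm_apply_apply]
  refine ⟨T', fun v => ι.symm (Z (ι v)), γ', ι.trans κ, ?_, ?_, hA⟩
  · refine ⟨fun x y => (hP x y).trans (hmp.P x y), hS.trans hmp.S, ?_, ?_⟩
    · intro x hx y hy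
      rw [hS] at hx
      rw [hP] at hy
      rw [hO', hO', LinearEquiv.apply_symm_apply, hmp.equ x hx y hy]
    · intro u hu huc i hi
      obtain ⟨B, hB, h⟩ := hmp.dif u hu huc i hi
      refine ⟨fun v => B (ι v), ⟨fun a c => ?_, fun c a => ?_⟩, ?_⟩
      · rw [map_add]
        exact hB.map_add _ _
      · rw [map_smul]
        exact hB.map_smul _ _
      · intro x hx y hy
        rw [hS] at hx
        rw [hP] at hy
        show B (ι (γ'.ω x y)) = _
        rw [hO]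
        exact h x hx y hy
  · ext w
    constructor
    · rintro ⟨u, hu, rfl⟩
      exact (hIn u).1 hu
    · intro hw
      refine ⟨(ι.trans κ).symm w, ?_, LinearEquiv.apply_symm_apply _ _⟩
      show In T' ((ι.trans κ).symm w)
      rw [hIn]
      show (ι.trans κ) ((ι.trans κ).symm w) ∈ Λ.L t
      rw [LinearEquiv.apply_symm_apply]
      exact hw

end TNF.OR
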