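import Pool.Agent.Lib.TNF.OR.Spec
import Pool.Agent.Lib.TATE.Asm.Rc

/-!
# PROJECT TNF, package OR: two loops with the same Galois elements at infinitely many levels
-/

set_option autoImplicit false

open Topology Metric HC HC.CC SEJ TATE

noncomputable section

namespace TNF.OR

theorem tTwo : S_Acg → S_Mod → S_Cmr → S_Two := by
  intro hAcg hMod hCmr p N Λ D h s J Z γ κ hs hTP ℓ hℓ A η η' ψ hψ hψL σ σ' hσ hinf j
  obtain ⟨k, hkj, hk⟩ := hinf j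
  obtain ⟨h1, h2, h3, h4⟩ := hσ k
  have hG : ∀ τ ∈ Gam D s, τ ∈ Fix s {a | ∃ n, a = ze (D.m n) 1} := by
    intro τ hτ
    refine ⟨hτ.1, ?_⟩
    rintro a ⟨n, rfl⟩
    exact hτ.2 n
  have happ : ∀ z : ℂ, ((σ k).trans (σ' k).symm) z = (σ' k).symm (σ k z) := fun z => rfl
  have hτ : (σ k).trans (σ' k).symm ∈ Gam D s := by
    refine ⟨fun i => ?_, fun n => ?_⟩
    · rw [happ, h1.1 i, RingEquiv.symm_apply_eq, h2.1 i]
    · rw [happ, h1.2 n, RingEquiv.symm_apply_eq, h2.2 n]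
  refine ⟨(σ k).trans (σ' k).symm, ⟨hτ.1, fun a ha => ?_⟩, fun ξ hξ => ?_, fun n v hv => ?_⟩
  · rw [happ, RingEquiv.symm_apply_eq]
    exact hk a ha
  · have hξk : ξ ^ ℓ ^ k = 1 := by
      obtain ⟨d, rfl⟩ := Nat.exists_eq_add_of_le hkj
      rw [pow_add, pow_mul, hξ, one_pow]
    obtain ⟨h5, h6⟩ := h3 ξ hξk
    rw [happ, h5, RingEquiv.symm_apply_eq, h6]
  · have key : ∀ (τ : ℂ ≃+* ℂ), τ ∈ Gam D s → ∀ (i : ℕ) (u u' : Ix (D.m n) (D.b n) → ℂ),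
        Act (Λ _ _ _ (h.cv n)) τ (D.t s n) (((ℓ : ℂ) ^ i)⁻¹ • u) (((ℓ : ℂ) ^ i)⁻¹ • u') ↔
        GR (γ n) τ (((ℓ : ℂ) ^ i)⁻¹ • (κ n).symm u) (((ℓ : ℂ) ^ i)⁻¹ • (κ n).symm u') := by
      intro τ hτ i u u'
      rw [← hAcg p N Λ D h s J Z γ κ hs hTP τ hτ n, map_smul, map_smul,
        LinearEquiv.apply_symm_apply, LinearEquiv.apply_symm_apply]
    rw [key _ hτ]
    refine hCmr p (J n) (D.m n) (D.r n) (Z n) (D.t s n) (D.b n) (γ n) (hTP.mp n) s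
      {a | ∃ n, a = ze (D.m n) 1} (fun j => Rc_aux.pt_mem s _ _ j)
      (hMod p N Λ D h s J Z γ κ hs hTP {a | ∃ n, a = ze (D.m n) 1} (fun n => ⟨n, rfl⟩) n) (σ k) (hG _ h1) (σ' k)
      (hG _ h2) ℓ hℓ j k hkj _ ((κ n).symm (η n v)) _ ?_ ?_
    · rw [← key _ h1]
      exact (h4 n v hv).1
    · rw [← key _ h2, ← hψ n v]
      exact (h4 n (ψ n v) (hψL n v hv)).2

end TNF.OR
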