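import Pool.Agent.Lib.TNF.OR.Dv
import Pool.Agent.Lib.TNF.OR.Lv
import Pool.Agent.Lib.TNF.OR.Tp
import Pool.Agent.Lib.TNF.OR.Acg
import Pool.Agent.Lib.TNF.OR.Mod
import Pool.Agent.Lib.TNF.OR.Cmg
import Pool.Agent.Lib.TNF.OR.Cmr
import Pool.Agent.Lib.TNF.OR.Lat
import Pool.Agent.Lib.TNF.OR.Rcp
import Pool.Agent.Lib.TNF.OR.Two
import Pool.Agent.Lib.TNF.OR.Orb
import Pool.Agent.Lib.TNF.OR.TP
import Pool.Agent.Lib.TATE.FA.Fa2
import Pool.Agent.Lib.TATE.FA.Ex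
import Pool.Agent.Lib.TATE.FA.All
import Pool.Agent.Lib.TATE.PA.Main
import Pool.Agent.Lib.TATE.Asm.Cmp

/-!
# PROJECT TNF, package OR: all modules
-/

set_option autoImplicit false

open TATE

namespace TNF.OR

theorem aTp : S_Tp := tTp tLv tFA2

theorem aAcg : S_Acg := tAcg tDv tFA2

theorem aMod : S_Mod := tMod aAcg

theorem aCmr : S_Cmr := tCmr tCmg

theorem aLat : S_Lat := tLat tFA2

theorem aRcp : S_Rcp := tRcp aTp aAcg aMod aLat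

theorem aTwo : S_Two := tTwo aAcg aMod aCmr

/-- `S_Tp` in its strong form. -/
theorem aTp2 : S_Tp2 := fun T m r Z t b γ hb ht hmp κ h1 h2 h3 Λ =>
  tTp2 tLv tFA2 T m r Z t b γ hb ht hmp κ h1 h2 h3 Λ

/-- **TP**. -/
theorem aTP : StmtTP := tTP tDv aTp2 tFA2 tFA3 tFA4

/-- **OR**. -/
theorem tOR : StmtOR := tOrb aTp aRcp aTwo PA.cPA1 PA.cPA3 PA.cPA5 tCmp

end TNF.OR
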