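import Pool.Agent.Lib.TNF.OR.Spec

/-!
MP_640417_ag, project TNF, package OR, module Dv (helper28): divisors of degree zero as sums of differences.
-/

set_option autoImplicit false

open Topology Metric HC HC.CC SEJ TATE

noncomputable section

namespace TNF.OR

theorem tDv : S_Dv := by
  intro X n e R he
  rcases n with _ | n
  · exact ⟨0, Fin.elim0, Fin.elim0, fun a => Fin.elim0 a, fun a => Fin.elim0 a, by
      intro A _ F; simp⟩
  · classical
    let φ : (Σ i : Fin (n + 1), Fin (e i).natAbs) ≃ Fin _ :=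
      Fintype.equivFin (Σ i : Fin (n + 1), Fin (e i).natAbs)
    refine ⟨_, fun a => if 0 ≤ e (φ.symm a).1 then R 0 else R (φ.symm a).1,
      fun a => if 0 ≤ e (φ.symm a).1 then R (φ.symm a).1 else R 0, ?_, ?_, ?_⟩
    · intro a
      by_cases h : 0 ≤ e (φ.symm a).1
      · exact ⟨0, by simp only [if_pos h]⟩
      · exact ⟨(φ.symm a).1, by simp only [if_neg h]⟩
    · intro a
      by_cases h : 0 ≤ e (φ.symm a).1
      · exact ⟨(φ.symm a).1, by simp only [if_pos h]⟩
      · exact ⟨0, by simp only [if_neg h]⟩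
    · intro A _ F
      have h1 : ∑ a, (F (if 0 ≤ e (φ.symm a).1 then R (φ.symm a).1 else R 0) -
          F (if 0 ≤ e (φ.symm a).1 then R 0 else R (φ.symm a).1)) =
          ∑ x : (Σ i : Fin (n + 1), Fin (e i).natAbs),
            (F (if 0 ≤ e x.1 then R x.1 else R 0) - F (if 0 ≤ e x.1 then R 0 else R x.1)) :=
        Equiv.sum_comp φ.symm (fun x : (Σ i : Fin (n + 1), Fin (e i).natAbs) =>
          (F (if 0 ≤ e x.1 then R x.1 else R 0) - F (if 0 ≤ e x.1 then R 0 else R x.1)))
      rw [h1, Fintype.sum_sigma]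
      have h2 : ∀ i : Fin (n + 1), ∑ _y : Fin (e i).natAbs,
          (F (if 0 ≤ e i then R i else R 0) - F (if 0 ≤ e i then R 0 else R i)) =
          e i • F (R i) - e i • F (R 0) := by
        intro i
        rw [Finset.sum_const, Finset.card_univ, Fintype.card_fin, ← smul_sub]
        by_cases h : 0 ≤ e i
        · rw [if_pos h, if_pos h, ← natCast_zsmul, Int.natAbs_of_nonneg h]
        · rw [if_neg h, if_neg h, ← natCast_zsmul]
          have h3 : ((e i).natAbs : ℤ) = - e i := by omega
          rw [h3, neg_smul, ← smul_neg, neg_sub]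
      rw [Finset.sum_congr rfl fun i _ => h2 i, Finset.sum_sub_distrib, ← Finset.sum_smul, he,
        zero_smul, sub_zero]

end TNF.OR
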