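import Pool.Agent.Lib.TNF.Iface
import Pool.Agent.Lib.TATE.RC.Spec
import Pool.Agent.Lib.TATE.TO.Spec

/-!
# PROJECT TNF, package OR (helper4): from Tate classes to finite flat families

Target: `StmtOR` (TNF/Iface.lean). The torus `V / L`, `L = (Λ _ _ _ _).L t`, is an abelian variety `J' n` with a map of
the curve, on which all `σ ∈ Gam D s` act (`TP`). A Tate class for the `J n` is one for the `J' n` (`S_Lat`), its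
rational components are invariant under all maps which are Galois at all levels (`S_Rcp`, from `StmtRC` of
TATE/RC), and the orbits under the loops are finite (`S_Orb`).

Every module: file `TNF/OR/Xyz.lean`, `theorem tXyz : S_Xyz`, namespace `TNF.OR`, before it
`open Topology Metric HC HC.CC SEJ TATE`; auxiliary lemmas in `namespace TNF.OR.Xyz_aux`. If the docstring says
`From S_A` the theorem is `tXyz : S_A → S_Xyz`. Landed theorems of TATE may be imported.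
-/

set_option autoImplicit false

open Topology Metric HC HC.CC SEJ TATE

noncomputable section

namespace TNF.OR

/-! ## 1. The abelian varieties `V / L` -/

/-- **Dv**: DIVISORS OF DEGREE ZERO AS SUMS OF DIFFERENCES. PROOF. `n = 0`: `k = 0`. `n = n' + 1`, `R₀ = R 0`. Index set
`ι = Σ i : Fin n, Fin (e i).natAbs`, `Q a = R i`, `Q' a = R₀` if `0 ≤ e i` and `Q a = R₀`, `Q' a = R i` otherwise: the sum over the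
fibre of `i` is `(e i) • (F (R i) - F R₀)`, and `∑ (e i) • F R₀ = 0`. Then `Fintype.equivFin ι`. -/
def S_Dv : Prop :=
  ∀ (X : Type) (n : ℕ) (e : Fin n → ℤ) (R : Fin n → X), ∑ i, e i = 0 →
    ∃ (k : ℕ) (Q' Q : Fin k → X), (∀ a, ∃ i, Q' a = R i) ∧ (∀ a, ∃ i, Q a = R i) ∧
      ∀ (A : Type) [AddCommGroup A] (F : X → A), ∑ a, (F (Q a) - F (Q' a)) = ∑ i, e i • F (R i)

/-- **Lv**: ANOTHER LATTICE in the same space. PROOF. `T'.V = T.V`, `T'.L = L'`. Discrete: `v ↦ N • v` is a homeomorphism of `T.V`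
which maps `L'` into the discrete `T.L`; (or: a ball around `0` contains finitely many elements of `L'`). It spans:
`N • T.L ⊆ L'`. Polarisation: `N ^ 2 * E(u, v) = E(N u, N v)`. -/
def S_Lv : Prop :=
  ∀ (T : AV) (L' : Submodule ℤ T.V) (N : ℕ), N ≠ 0 → (∀ v ∈ L', N • v ∈ T.L) →
    (∀ v ∈ T.L, N • v ∈ L') → ∃ (T' : AV) (ι : T'.V ≃ₗ[ℂ] T.V), (∀ v, ‖ι v‖ = ‖v‖) ∧
      ∀ v, In T' v ↔ ι v ∈ L'

/-- **Tp**: THE ABELIAN VARIETY `V / L` with its map of the curve. From S_Lv, StmtFA2. PROOF. `L' = κ⁻¹ L`. `N`: `LPD.fin`, `LZ ⊆ κ T.L`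
(`al` for `Q = P`), and `T.L` is finitely generated, `κ T.L ⊆ LQ`, so `N • κ T.L ⊆ LZ ⊆ L` for some `N ≠ 0`. `T'`, `ι` from `S_Lv`;
`κ' = κ ∘ ι`, `Z' = ι⁻¹ Z ι`. `γ'`: `P`, `S` as for `γ`, `ω' x y = ι⁻¹ (γ.ω x y)` (`area`: the norms are equal). `P₀ ∈ Pts m b t` fixed (there is one);
`α' x y = κ'⁻¹ v` for a chosen `v` with `Itg m b t P₀ (x, y) v` if `(x, y) ∈ Pts` (`StmtFA2`, first part), `0` otherwise. `al'`: the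
differences of integrals with the same end points are in `LZ` (`StmtFA2`, parts 2, 3, 4). `map`: for `(x₀, y₀) ∈ Pts` `TO.tBr` (TATE/TO/Br.lean) gives
`η`, `V` with `Itg (x₀, y₀) (x, η x) (V x)`, `HasDerivAt V (om (x, η x)) x`; `g x = κ'⁻¹ (v₀ + V x)`; `LZ ⊆ L`; `κ (γ.ω x y) = om (x, y)`. `IsMp` for
`γ'` follows from `IsMp` for `γ` (it involves only `P`, `S`, `ω`). -/
def S_Tp : Prop :=
  ∀ (T : AV) (m r : ℕ) (Z : T.V → T.V) (t : Fin (r + 1) → ℂ) (b : Fin (r + 1) → ℕ) (γ : Cur T),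
    Cvb m b → Function.Injective t → IsMp T m Z t b γ → ∀ κ : T.V ≃ₗ[ℂ] (Ix m b → ℂ),
    (∀ x ∉ γ.S, ∀ y, γ.P (x, y) = 0 → κ (γ.ω x y) = om m b t (x, y)) →
    κ '' {v | Rt T v} = LQ m b t →
    (∀ P Q v, Itg m b t P Q v → ∃ l, In T l ∧ κ (γ.α Q.1 Q.2 - γ.α P.1 P.2) - v = κ l) →
    ∀ Λ : LPD m b, ∃ (T' : AV) (Z' : T'.V → T'.V) (γ' : Cur T') (κ' : T'.V ≃ₗ[ℂ] (Ix m b → ℂ)),
      IsMp T' m Z' t b γ' ∧ κ' '' {v | In T' v} = Λ.L t ∧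
      ∀ P Q v, Itg m b t P Q v → κ' (γ'.α Q.1 Q.2 - γ'.α P.1 P.2) - v ∈ LZ m b t

/-- The abelian varieties `V / L` of the factors, with their maps of the curves. -/
structure TP {p N : ℕ} (Λ : LL) (D : Dt p N) (h : D.ok) (s : Fin p → ℂ) (J : Fin N → AV)
    (Z : ∀ n, (J n).V → (J n).V) (γ : ∀ n, Cur (J n))
    (κ : ∀ n, (J n).V ≃ₗ[ℂ] (Ix (D.m n) (D.b n) → ℂ)) : Prop where
  mp : ∀ n, IsMp (J n) (D.m n) (Z n) (D.t s n) (D.b n) (γ n)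
  lat : ∀ n, κ n '' {v | In (J n) v} = (Λ _ _ _ (h.cv n)).L (D.t s n)
  al : ∀ n P Q v, Itg (D.m n) (D.b n) (D.t s n) P Q v →
    κ n ((γ n).α Q.1 Q.2 - (γ n).α P.1 P.2) - v ∈ LZ (D.m n) (D.b n) (D.t s n)

/-! ## 2. Galois action -/

/-- **Acg**: `Act` AND `GR`. From S_Dv, StmtFA2. (1) PROOF. As `TATE.Rc_aux.conj` (TATE/Asm/Rc.lean): coefficients `1` at the `Q a`, `-1` at the `Q' a`
(`Fin.append`); `σ (t j) = t j`, so `(fun j => σ (t j)) = t`; `TP.al` at both ends, `LZ ⊆ L` (`LPD.le`), `L` is a group (`LPD.sub`), `lat`.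
(2) PROOF. `GR`: `e`, `x`, `y`, `∑ e = 0`; `S_Dv` for `R i = (x i, y i)` gives pairs `Q' a`, `Q a` in `Pts`; integrals `w a`, `w' a` exist (`StmtFA2`, first part);
`F = γ.α` and `F = γ.α ∘ σ` in `S_Dv`, `TP.al`. -/
def S_Acg : Prop :=
  ∀ (p N : ℕ) (Λ : LL) (D : Dt p N) (h : D.ok) (s : Fin p → ℂ) (J : Fin N → AV)
    (Z : ∀ n, (J n).V → (J n).V) (γ : ∀ n, Cur (J n))
    (κ : ∀ n, (J n).V ≃ₗ[ℂ] (Ix (D.m n) (D.b n) → ℂ)), Function.Injective s →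
    TP Λ D h s J Z γ κ → ∀ σ ∈ Gam D s, ∀ (n : Fin N) (v v' : (J n).V),
    Act (Λ _ _ _ (h.cv n)) σ (D.t s n) (κ n v) (κ n v') ↔ GR (γ n) σ v v'

/-- **Mod**: `Gam` ACTS. From S_Acg. PROOF. `Fix s A ⊆ Gam D s`. `GR γ σ v v'` gives `Act σ (κ v) (κ v')` (`S_Acg`), i.e. `w`, `w'` with
`∑ w - κ v ∈ L`, `∑ w' - κ v' ∈ L`; `κ v ∈ L` (`lat`), so `∑ w ∈ L`, so `∑ w' ∈ L` (`LPD.aut`; `(fun j => σ (t j)) = t`) and `κ v' ∈ L`. -/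
def S_Mod : Prop :=
  ∀ (p N : ℕ) (Λ : LL) (D : Dt p N) (h : D.ok) (s : Fin p → ℂ) (J : Fin N → AV)
    (Z : ∀ n, (J n).V → (J n).V) (γ : ∀ n, Cur (J n))
    (κ : ∀ n, (J n).V ≃ₗ[ℂ] (Ix (D.m n) (D.b n) → ℂ)), Function.Injective s →
    TP Λ D h s J Z γ κ → ∀ A : Set ℂ, (∀ n, ze (D.m n) 1 ∈ A) → ∀ n, IsMod s (γ n) A

/-- **Cmg**: COMPOSITION. PROOF. `GR σ a b` with the divisor `∑ e_k P_k`, `GR σ' c b` with `∑ e'_k P'_k`. The relation `GR σ'⁻¹` (divisor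
`∑ e_k σ P_k - ∑ e'_k σ' P'_k`, `Fin.append`) relates `b - b` modulo `L` to `∑ e_k α(σ'⁻¹ σ P_k) - ∑ e'_k α(P'_k)`, which is in `L` by `IsMod`. So
`∑ e_k α(σ'⁻¹ σ P_k)` is congruent to `c`. The points `σ'⁻¹ σ P_k` are on the curve: `P`, `S` in `IsMp`, `σ'⁻¹ σ` fixes the `t j`
(`t j ∈ ℚ(s)`: `TATE.Rc_aux.fix_mem`). -/
def S_Cmg : Prop :=
  ∀ (p : ℕ) (T : AV) (m r : ℕ) (Z : T.V → T.V) (t : Fin (r + 1) → ℂ) (b : Fin (r + 1) → ℕ) (γ : Cur T),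
    IsMp T m Z t b γ → ∀ (s : Fin p → ℂ) (A : Set ℂ),
    (∀ j, t j ∈ IntermediateField.adjoin ℚ (Set.range s)) → IsMod s γ A →
    ∀ σ ∈ Fix s A, ∀ σ' ∈ Fix s A, ∀ a b' c : T.V, GR γ σ a b' → GR γ σ' c b' →
      GR γ (σ.trans σ'.symm) a c

/-- **Cmr**: COMPOSITION at lower levels. From S_Cmg. Two automorphisms `σ`, `σ'` in `Fix s A₀` with the same values on `A ⊇ A₀`: see `S_Cmg`; `σ'⁻¹ σ ∈ Fix s A`,
it fixes the `ℓ ^ k`-th roots of unity, and a smaller level `j ≤ k`: `GR` is additive (`TATE.Mg_aux.gr_add`), so multiples of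
`GR`-related vectors are related: `v / ℓ ^ j = ℓ ^ (k - j) (v / ℓ ^ k)`. PROOF. As said. -/
def S_Cmr : Prop :=
  ∀ (p : ℕ) (T : AV) (m r : ℕ) (Z : T.V → T.V) (t : Fin (r + 1) → ℂ) (b : Fin (r + 1) → ℕ) (γ : Cur T),
    IsMp T m Z t b γ → ∀ (s : Fin p → ℂ) (A₀ : Set ℂ),
    (∀ j, t j ∈ IntermediateField.adjoin ℚ (Set.range s)) → IsMod s γ A₀ →
    ∀ σ ∈ Fix s A₀, ∀ σ' ∈ Fix s A₀, ∀ (ℓ : ℕ), ℓ ≠ 0 → ∀ j k : ℕ, j ≤ k → ∀ a b' c : T.V,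
      GR γ σ (((ℓ : ℂ) ^ k)⁻¹ • a) (((ℓ : ℂ) ^ k)⁻¹ • b') →
      GR γ σ' (((ℓ : ℂ) ^ k)⁻¹ • c) (((ℓ : ℂ) ^ k)⁻¹ • b') →
      GR γ (σ.trans σ'.symm) (((ℓ : ℂ) ^ j)⁻¹ • a) (((ℓ : ℂ) ^ j)⁻¹ • c)

/-! ## 3. Tate classes -/

/-- **Lat**: ANOTHER LATTICE: Tate classes for the `J n` are Tate classes for the `J' n`. From StmtFA2. PROOF. `g' n v = κ'⁻¹ κ g n v`. (1) `IsPr g'`: linear,
bijective; `Rt T v → Rt (J n) (g n v) → κ g n v ∈ LQ = κ' (Rt (J' n))` (`LZ ⊆ L`, `LPD.fin`). (2) Same set `A`. Let `M ≠ 0` with `κ'⁻¹ κ (M v) ∈ (J' n).L` for all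
`v ∈ (J n).L`, all `n` (as in `S_Tp`). For `f : H1 (J' n) ℓ` put `f₀ v = f (κ'⁻¹ κ (M v))`. `IsAct γ' σ f f'` gives `IsAct γ σ f₀ f₀'`: `‖f₀ v‖ ≤ 1`;
`GR γ σ (v / ℓ^k) (v' / ℓ^k)` with the divisor `∑ e P`: `κ ∑ e α(P) - κ' ∑ e α'(P) ∈ κ (J n).L` since `∑ e = 0` and `κ (α Q - α P) - κ' (α' Q - α' P)` is in
`κ (J n).L` (`P.al`, `TP.al`, `LZ ⊆ κ (J n).L`; integrals exist: `StmtFA2`), so `GR γ' σ (κ'⁻¹ κ (M v) / ℓ^k) (κ'⁻¹ κ (M v') / ℓ^k)` with the divisor `∑ M e P`.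
`IsPb g f₀ (M • F)`: `w = k • g v` gives `κ'⁻¹ κ (M w) = (M k) • g' v`. So `c (M • F') = χ ^ i c (M • F)`, `map_smul_univ`, `M ≠ 0` in `ℚ_ℓ`. -/
def S_Lat : Prop :=
  ∀ (p N : ℕ) (Λ : LL) (s : Fin p → ℂ) (J : Fin N → AV) (γ : ∀ n, Cur (J n)) (P : Pk s γ)
    (J' : Fin N → AV) (Z' : ∀ n, (J' n).V → (J' n).V) (γ' : ∀ n, Cur (J' n))
    (κ' : ∀ n, (J' n).V ≃ₗ[ℂ] (Ix (P.D.m n) (P.D.b n) → ℂ)), Function.Injective s →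
    TP Λ P.D P.ok s J' Z' γ' κ' → ∀ (T : AV) (g : ∀ n, T.V → (J n).V), IsPr g →
    IsPr (fun n v => (κ' n).symm (P.κ n (g n v)) : ∀ n, T.V → (J' n).V) ∧
    ∀ (ℓ : ℕ) [Fact ℓ.Prime] (i : ℕ) (c : HL T ℓ (2 * i)), IsTate s γ g ℓ i c →
      IsTate s γ' (fun n v => (κ' n).symm (P.κ n (g n v)) : ∀ n, T.V → (J' n).V) ℓ i c

/-- `η` is at every finite level the action on `V / L` of an automorphism of `ℂ` which fixes `s`, `A` and the roots of unity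
of that level. -/
def IsGl {p N : ℕ} (Λ : LL) (D : Dt p N) (h : D.ok) (s : Fin p → ℂ) (ℓ : ℕ) (A : Set ℂ)
    (η : ∀ n, (Ix (D.m n) (D.b n) → ℂ) →ₗ[ℝ] (Ix (D.m n) (D.b n) → ℂ)) : Prop :=
  ∀ k : ℕ, ∃ σ ∈ Fix s A, (∀ ξ : ℂ, ξ ^ ℓ ^ k = 1 → σ ξ = ξ) ∧
    ∀ n, ∀ v ∈ (Λ _ _ _ (h.cv n)).L (D.t s n),
      Act (Λ _ _ _ (h.cv n)) σ (D.t s n) (((ℓ : ℂ) ^ k)⁻¹ • v) (((ℓ : ℂ) ^ k)⁻¹ • η n v)

/-- **Rcp**: THE RATIONAL COMPONENTS. From S_Tp, S_Acg, S_Mod, S_Lat. PROOF. `J'`, `γ'`, `κ'`, `Z'` from `S_Tp` for every factor (`choose`). `A = ` the set of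
`IsTate` (for `γ'`, `S_Lat`) `∪ {ze (m n) 1}`, finite, algebraic. `RC.rMain RC.rCh RC.rAct RC.rCmp` (`StmtRC`) for `J'`, `γ'`, `g'`: `LfR` from `RC.rLft`;
`IsMod` from `S_Mod`; conjugates of torsion points: `TO.tSum …` (`S_Sum`, TATE/TO/Sum.lean; with `StmtGA1`: `TATE.GA`; it does not need `IsCy`) and
`TATE.Rc_aux.conj`. The end is as in `tRc` (TATE/Asm/Rc.lean): `H = G⁻¹ φ G`, `φ n = κ'⁻¹ η κ'`; the hypothesis on `GR` from `IsGl` and `S_Acg`. -/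
def S_Rcp : Prop :=
  ∀ (p N : ℕ) (Λ : LL) (s : Fin p → ℂ) (J : Fin N → AV) (γ : ∀ n, Cur (J n)), Function.Injective s →
    ∀ (P : Pk s γ) (T : AV) (g : ∀ n, T.V → (J n).V), IsPr g → ∀ G : T.V ≃ₗ[ℂ] P.D.V,
    (∀ v n, G v n = P.κ n (g n v)) → G '' {v | Rt T v} = P.D.L s →
    ∀ (ℓ : ℕ) [Fact ℓ.Prime] (i : ℕ) (c : HL T ℓ (2 * i)), IsTate s γ g ℓ i c →
    ∃ (A : Set ℂ) (n : ℕ) (x : Fin n → ℚ_[ℓ]) (C : Fin n → Hlg T (2 * i)), A.Finite ∧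
      (∀ a ∈ A, AlgO s a) ∧ (∀ k, Rtc {v | In T v} (C k)) ∧
      (∀ (a : Fin (2 * i) → F1 T) (f : Fin (2 * i) → H1 T ℓ),
        (∀ j (v : T.L), ∃ q : ℚ, ev (a j) v = q ∧ f j v = q) →
        ∃ q : Fin n → ℚ, (∀ k, itg (C k) a = q k) ∧ c f = ∑ k, x k * q k) ∧
      ∀ η, IsGl Λ P.D P.ok s ℓ A η → ∀ (k : Fin n) (φ : P.D.V →ₗ[ℝ] P.D.V),
        (∀ v n, φ v n = η n (v n)) →
        psh φ (psh ((G : T.V →ₗ[ℂ] P.D.V).restrictScalars ℝ) (C k)) =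
          psh ((G : T.V →ₗ[ℂ] P.D.V).restrictScalars ℝ) (C k)

/-! ## 4. Orbits -/

/-- **Two**: TWO LOOPS. From S_Acg, S_Mod, S_Cmr. PROOF. `A₀ = {ze (m n) 1}` (`n` varies; `IsMod s γ A₀`, `Gam D s = Fix s A₀`). `φ`, `φ'` the real linear maps of two loops
(componentwise `η`, `η'`), `η' n (ψ n v) = η n v`, `σ k`, `σ' k ∈ Gam D s` with `Act (σ k) (v / ℓ^k) (η v / ℓ^k)`, `Act (σ' k) (v / ℓ^k) (η' v / ℓ^k)` for `v ∈ L`, and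
`σ k a = σ' k a` for all `a ∈ A` and infinitely many `k`. For the level `j` choose such a `k ≥ j`: `Act (σ k) (v / ℓ^k) (η v / ℓ^k)` and
`Act (σ' k) (ψ v / ℓ^k) (η' (ψ v) / ℓ^k)` with `η' (ψ v) = η v`, so by `S_Acg`, `S_Cmr` (`Fix s {ze (m n) 1} ⊆ Gam`): `Act (σ'⁻¹ σ) (v / ℓ^j) (ψ v / ℓ^j)`. -/
def S_Two : Prop :=
  ∀ (p N : ℕ) (Λ : LL) (D : Dt p N) (h : D.ok) (s : Fin p → ℂ) (J : Fin N → AV)
    (Z : ∀ n, (J n).V → (J n).V) (γ : ∀ n, Cur (J n))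
    (κ : ∀ n, (J n).V ≃ₗ[ℂ] (Ix (D.m n) (D.b n) → ℂ)), Function.Injective s →
    TP Λ D h s J Z γ κ → ∀ (ℓ : ℕ), ℓ ≠ 0 → ∀ A : Set ℂ,
    ∀ (η η' ψ : ∀ n, (Ix (D.m n) (D.b n) → ℂ) →ₗ[ℝ] (Ix (D.m n) (D.b n) → ℂ)),
    (∀ n v, η' n (ψ n v) = η n v) →
    (∀ n, ∀ v ∈ (Λ _ _ _ (h.cv n)).L (D.t s n), ψ n v ∈ (Λ _ _ _ (h.cv n)).L (D.t s n)) →
    ∀ σ σ' : ℕ → (ℂ ≃+* ℂ), (∀ k, σ k ∈ Gam D s ∧ σ' k ∈ Gam D s ∧
      (∀ ξ : ℂ, ξ ^ ℓ ^ k = 1 → σ k ξ = ξ ∧ σ' k ξ = ξ) ∧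
      ∀ n, ∀ v ∈ (Λ _ _ _ (h.cv n)).L (D.t s n),
        Act (Λ _ _ _ (h.cv n)) (σ k) (D.t s n) (((ℓ : ℂ) ^ k)⁻¹ • v) (((ℓ : ℂ) ^ k)⁻¹ • η n v) ∧
        Act (Λ _ _ _ (h.cv n)) (σ' k) (D.t s n) (((ℓ : ℂ) ^ k)⁻¹ • v)
          (((ℓ : ℂ) ^ k)⁻¹ • η' n v)) →
    (∀ j : ℕ, ∃ k ≥ j, ∀ a ∈ A, σ k a = σ' k a) → IsGl Λ D h s ℓ A ψ

/-- **Orb**: `StmtOR`. From S_Tp, S_Rcp, S_Two, StmtPA1, StmtPA3, StmtPA5, S_Cmp. PROOF. `A`, `C` from `S_Rcp`; `y : Fin K → ℂ` the elements of `A`. `w ∉ X`, `M`. For a loop `δ` outside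
`Bd s w` with transport `φ`: `σ_(δ,k)` from `Lps`, `e_k(δ) = σ_(δ,k) ∘ y` in the finite set `O` of the conjugates of `y` (`TATE.Mg_aux.conj_finite`). `e(δ)` = the limit along
`Filter.hyperfilter ℕ` (`Ultrafilter.eq_pure_of_finite_mem`). If `e(δ) = e(δ')` then `e_k(δ) = e_k(δ')` for infinitely many `k`. `cat δ δ'` has a transport `ψ`, `φ' ψ = φ`
(`StmtPA5`), componentwise (`S_Cmp`), `ψ` maps `L` to `L` (`Lps` for the loop `cat δ δ'`, `k = 0`, and `LPD.aut`). `S_Two`: `IsGl`,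
so `psh ψ C = C`, `psh φ C = psh φ' C`. So the orbit of `psh G (C k)` is finite: `StmtPA3` with `D = ∅`. (Compare `tFo`, TATE/Asm/Fo.lean.) -/
def S_Orb : Prop := StmtOR

end TNF.OR
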